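import Pool.Agent.Lib.MP_6c3d62_pr.Mg.G054

/-! Windows: averaging over a set of disjoint translates of `Q`, forward and backward evolution. -/

open Finset

set_option linter.unusedSectionVars false

namespace Pool.Agent.Stirring.QK

variable {V : Type*} [AddCommGroup V] [Fintype V] [DecidableEq V]

/-- Average over the windows `q + Q`, `q ∈ G`. -/
noncomputable def avg (Q G : Finset V) (u : V → ℝ) : V → ℝ := fun z =>
  u z + ∑ q ∈ G, if z - q ∈ Q then (∑ y ∈ Q, u (q + y)) / Q.card - u z else 0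

/-- The translates of `Q` by the elements of `G` are disjoint. -/
def Dis (Q G : Finset V) : Prop := ∀ q ∈ G, ∀ q' ∈ G, ∀ z, z - q ∈ Q → z - q' ∈ Q → q = q'

/-- `z` lies in a window. -/
def InWin (Q G : Finset V) (z : V) : Prop := ∃ q ∈ G, z - q ∈ Q

instance (Q G : Finset V) : DecidablePred (InWin Q G) := fun z => by
  unfold InWin; infer_instance

theorem avg_in {Q G : Finset V} (hG : Dis Q G) (u : V → ℝ) {q z : V} (hq : q ∈ G)
    (hz : z - q ∈ Q) : avg Q G u z = (∑ y ∈ Q, u (q + y)) / Q.card := by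
  unfold avg
  rw [Finset.sum_eq_single q, if_pos hz]
  · ring
  · intro q' hq' hne
    rw [if_neg]
    intro h
    exact hne (hG q' hq' q hq z h hz)
  · intro h; exact absurd hq h

theorem avg_out {Q G : Finset V} (u : V → ℝ) {z : V} (hz : ¬ InWin Q G z) :
    avg Q G u z = u z := by
  unfold avg
  rw [Finset.sum_eq_zero, add_zero]
  intro q hq
  rw [if_neg]
  intro h
  exact hz ⟨q, hq, h⟩

theorem avg_cases {Q G : Finset V} (hG : Dis Q G) (u : V → ℝ) (z : V) :
    avg Q G u z = u z ∨ ∃ q ∈ G, z - q ∈ Q ∧ avg Q G u z = (∑ y ∈ Q, u (q + y)) / Q.card := by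
  by_cases h : InWin Q G z
  · obtain ⟨q, hq, hz⟩ := h
    exact Or.inr ⟨q, hq, hz, avg_in hG u hq hz⟩
  · exact Or.inl (avg_out u h)

theorem avg_nonneg {Q G : Finset V} (hG : Dis Q G) {u : V → ℝ} (hu : ∀ z, 0 ≤ u z) (z : V) :
    0 ≤ avg Q G u z := by
  rcases avg_cases hG u z with h | ⟨q, _, _, h⟩
  · rw [h]; exact hu z
  · rw [h]; exact div_nonneg (Finset.sum_nonneg fun y _ => hu _) (Nat.cast_nonneg _)

theorem avg_le {Q G : Finset V} (hG : Dis Q G) {u : V → ℝ} {U : ℝ} (hu : ∀ z, u z ≤ U) (z : V) :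
    avg Q G u z ≤ U := by
  rcases avg_cases hG u z with h | ⟨q, _, hz, h⟩
  · rw [h]; exact hu z
  · rw [h]
    have hc : (0 : ℝ) < Q.card := by exact_mod_cast Finset.card_pos.mpr ⟨_, hz⟩
    rw [div_le_iff₀ hc]
    calc ∑ y ∈ Q, u (q + y) ≤ ∑ _y ∈ Q, U := Finset.sum_le_sum fun y _ => hu _
      _ = U * Q.card := by rw [Finset.sum_const, nsmul_eq_mul, mul_comm]

/-- The bilinear form of the average. -/
theorem sum_avg_mul (Q G : Finset V) (u v : V → ℝ) :
    ∑ z, avg Q G u z * v z = ∑ z, u z * v z +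
      ∑ q ∈ G, ((∑ y ∈ Q, u (q + y)) * (∑ y ∈ Q, v (q + y)) / Q.card -
        ∑ y ∈ Q, u (q + y) * v (q + y)) := by
  have key : ∀ q : V, ∑ z, (if z - q ∈ Q then (∑ y ∈ Q, u (q + y)) / Q.card - u z else 0) * v z =
      (∑ y ∈ Q, u (q + y)) * (∑ y ∈ Q, v (q + y)) / Q.card - ∑ y ∈ Q, u (q + y) * v (q + y) := by
    intro q
    rw [← Equiv.sum_comp (Equiv.addLeft q)]
    simp only [Equiv.coe_addLeft, add_sub_cancel_left, ite_mul, zero_mul]
    rw [Finset.sum_ite_mem, Finset.univ_inter]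
    simp only [sub_mul, Finset.sum_sub_distrib]
    congr 1
    rw [← Finset.mul_sum]
    ring
  calc ∑ z, avg Q G u z * v z = ∑ z, (u z * v z + ∑ q ∈ G,
        (if z - q ∈ Q then (∑ y ∈ Q, u (q + y)) / Q.card - u z else 0) * v z) := by
        refine Finset.sum_congr rfl fun z _ => ?_
        unfold avg
        rw [add_mul, Finset.sum_mul]
    _ = _ := by
        rw [Finset.sum_add_distrib, Finset.sum_comm]
        congr 1
        exact Finset.sum_congr rfl fun q _ => key q

/-- The average is symmetric. -/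
theorem avg_symm (Q G : Finset V) (u v : V → ℝ) :
    ∑ z, avg Q G u z * v z = ∑ z, u z * avg Q G v z := by
  have h1 := sum_avg_mul Q G u v
  have h2 := sum_avg_mul Q G v u
  have h3 : ∑ z, u z * avg Q G v z = ∑ z, avg Q G v z * u z :=
    Finset.sum_congr rfl fun z _ => mul_comm _ _
  rw [h1, h3, h2]
  congr 1
  · exact Finset.sum_congr rfl fun z _ => mul_comm _ _
  · refine Finset.sum_congr rfl fun q _ => ?_
    congr 1
    · ring
    · exact Finset.sum_congr rfl fun z _ => mul_comm _ _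

theorem avg_one (Q G : Finset V) : avg Q G (fun _ => (1 : ℝ)) = fun _ => 1 := by
  funext z
  unfold avg
  rw [Finset.sum_eq_zero, add_zero]
  intro q _
  split
  · next h =>
    have hc : (Q.card : ℝ) ≠ 0 := by
      have : 0 < Q.card := Finset.card_pos.mpr ⟨_, h⟩
      positivity
    rw [Finset.sum_const, nsmul_eq_mul, mul_one, div_self hc, sub_self]
  · rfl

theorem avg_sum (Q G : Finset V) (u : V → ℝ) : ∑ z, avg Q G u z = ∑ z, u z := by
  have h := avg_symm Q G u (fun _ => 1)
  simpa [avg_one] using h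

/-- The oscillation functional. -/
noncomputable def osc (Q : Finset V) (g : V → ℝ) : ℝ := ∑ z ∈ Q, ∑ q, |g (q + z) - g q|

/-- The oscillation seen by the windows `s + Λ`. -/
noncomputable def oscS (Q Λ : Finset V) (s : V) (g : V → ℝ) : ℝ :=
  ∑ q ∈ Λ, ∑ z ∈ Q, |g (s + q + z) - g (s + q)|

theorem oscS_nonneg (Q Λ : Finset V) (s : V) (g : V → ℝ) : 0 ≤ oscS Q Λ s g :=
  Finset.sum_nonneg fun _ _ => Finset.sum_nonneg fun _ _ => abs_nonneg _

theorem osc_nonneg (Q : Finset V) (g : V → ℝ) : 0 ≤ osc Q g :=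
  Finset.sum_nonneg fun _ _ => Finset.sum_nonneg fun _ _ => abs_nonneg _

theorem oscS_le (Q Λ : Finset V) (s : V) (g : V → ℝ) : oscS Q Λ s g ≤ osc Q g := by
  unfold oscS osc
  rw [Finset.sum_comm]
  refine Finset.sum_le_sum fun z _ => ?_
  calc ∑ q ∈ Λ, |g (s + q + z) - g (s + q)| ≤ ∑ q, |g (s + q + z) - g (s + q)| :=
        Finset.sum_le_sum_of_subset_of_nonneg (Finset.subset_univ _) fun _ _ _ => abs_nonneg _
    _ = ∑ q, |g (q + z) - g q| :=
        Equiv.sum_comp (Equiv.addLeft s) (fun q => |g (q + z) - g q|)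

theorem sum_oscS (Q Λ : Finset V) (g : V → ℝ) :
    ∑ s, oscS Q Λ s g = Λ.card * osc Q g := by
  unfold oscS osc
  rw [Finset.sum_comm]
  have h : ∀ q : V, ∑ s, ∑ z ∈ Q, |g (s + q + z) - g (s + q)| =
      ∑ z ∈ Q, ∑ q, |g (q + z) - g q| := by
    intro q
    rw [Finset.sum_comm]
    refine Finset.sum_congr rfl fun z _ => ?_
    exact Equiv.sum_comp (Equiv.addRight q) (fun q => |g (q + z) - g q|)
  rw [Finset.sum_congr rfl fun q _ => h q, Finset.sum_const, nsmul_eq_mul]

/-- Averaging over any set of windows changes the integral of a smooth function only a little. -/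
theorem avg_osc {Q G Λ : Finset V} {s : V} (hG : G ⊆ Λ.image (s + ·)) {u : V → ℝ} {U : ℝ}
    (hu : ∀ z, 0 ≤ u z) (huU : ∀ z, u z ≤ U) (g : V → ℝ) :
    |∑ z, avg Q G u z * g z - ∑ z, u z * g z| ≤ U * oscS Q Λ s g := by
  rw [sum_avg_mul, add_sub_cancel_left]
  have h1 : ∀ q : V, |(∑ y ∈ Q, u (q + y)) * (∑ y ∈ Q, g (q + y)) / Q.card -
      ∑ y ∈ Q, u (q + y) * g (q + y)| ≤ U * ∑ z ∈ Q, |g (q + z) - g q| := by
    intro q
    rcases Q.eq_empty_or_nonempty with rfl | hQ
    · simp
    have hc : (0 : ℝ) < Q.card := by exact_mod_cast Finset.card_pos.mpr hQ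
    set m := (∑ y ∈ Q, u (q + y)) / Q.card with hm
    have hm1 : m * Q.card = ∑ y ∈ Q, u (q + y) := by rw [hm]; field_simp
    have h2 : (∑ y ∈ Q, u (q + y)) * (∑ y ∈ Q, g (q + y)) / Q.card -
        ∑ y ∈ Q, u (q + y) * g (q + y) = ∑ y ∈ Q, (m - u (q + y)) * (g (q + y) - g q) := by
      have h3 : ∀ y ∈ Q, (m - u (q + y)) * (g (q + y) - g q) =
          m * g (q + y) - u (q + y) * g (q + y) - g q * m + g q * u (q + y) := fun y _ => by ring
      have h4 : ∑ y ∈ Q, g q * u (q + y) = g q * (m * Q.card) := by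
        rw [← Finset.mul_sum, ← hm1]
      have h5 : ∑ y ∈ Q, m * g (q + y) = m * ∑ y ∈ Q, g (q + y) := by rw [← Finset.mul_sum]
      rw [Finset.sum_congr rfl h3, Finset.sum_add_distrib, Finset.sum_sub_distrib,
        Finset.sum_sub_distrib, h4, h5, Finset.sum_const, nsmul_eq_mul, ← hm1]
      field_simp
      ring
    rw [h2]
    refine (Finset.abs_sum_le_sum_abs _ _).trans ?_
    rw [Finset.mul_sum]
    refine Finset.sum_le_sum fun y _ => ?_
    rw [abs_mul]
    refine mul_le_mul_of_nonneg_right ?_ (abs_nonneg _)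
    have hm0 : 0 ≤ m := div_nonneg (Finset.sum_nonneg fun y _ => hu _) hc.le
    have hmU : m ≤ U := by
      rw [hm, div_le_iff₀ hc]
      calc ∑ y ∈ Q, u (q + y) ≤ ∑ _y ∈ Q, U := Finset.sum_le_sum fun y _ => huU _
        _ = U * Q.card := by rw [Finset.sum_const, nsmul_eq_mul, mul_comm]
    rw [abs_le]
    constructor <;> linarith [hu (q + y), huU (q + y)]
  refine (Finset.abs_sum_le_sum_abs _ _).trans ?_
  refine (Finset.sum_le_sum fun q _ => h1 q).trans ?_
  rw [← Finset.mul_sum]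
  rcases isEmpty_or_nonempty V with hV | ⟨⟨x0⟩⟩
  · have : G = ∅ := by
      rw [Finset.eq_empty_iff_forall_notMem]; intro x; exact (hV.false x).elim
    subst this
    have h3 : Λ = ∅ := by
      rw [Finset.eq_empty_iff_forall_notMem]; intro x; exact (hV.false x).elim
    subst h3
    simp [oscS]
  have hU : 0 ≤ U := (hu x0).trans (huU x0)
  refine mul_le_mul_of_nonneg_left ?_ hU
  unfold oscS
  refine (Finset.sum_le_sum_of_subset_of_nonneg hG fun q _ _ =>
    Finset.sum_nonneg fun z _ => abs_nonneg _).trans ?_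
  rw [Finset.sum_image fun a _ b _ h => add_left_cancel h]

section Slab

variable {Ω : Type*} [Fintype Ω]

/-- One slab: permutation, shift and set of good windows. -/
structure Slab (V Ω : Type*) where
  w : Ω → ℝ
  T : Ω → Equiv.Perm V
  sh : Ω → V
  good : Ω → Finset V

variable (S : Slab V Ω) (Q : Finset V)

/-- One slab, forward. -/
noncomputable def stp (a : Ω) (u : V → ℝ) : V → ℝ := avg Q (S.good a) (fun z => u (S.T a z))

/-- One slab, backward. -/
noncomputable def bck (a : Ω) (v : V → ℝ) : V → ℝ := fun z => avg Q (S.good a) v ((S.T a).symm z)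

/-- Forward evolution. -/
noncomputable def fw : List Ω → (V → ℝ) → V → ℝ
  | [], u => u
  | a :: l, u => fw l (stp S Q a u)

/-- Backward evolution. -/
noncomputable def bw : List Ω → (V → ℝ) → V → ℝ
  | [], v => v
  | a :: l, v => bck S Q a (bw l v)

theorem fw_append (l l' : List Ω) (u : V → ℝ) : fw S Q (l ++ l') u = fw S Q l' (fw S Q l u) := by
  induction l generalizing u with
  | nil => rfl
  | cons a l ih => exact ih _

theorem bw_append (l l' : List Ω) (v : V → ℝ) : bw S Q (l ++ l') v = bw S Q l (bw S Q l' v) := by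
  induction l with
  | nil => rfl
  | cons a l ih => simp only [List.cons_append, bw, ih]

theorem fw_snoc (l : List Ω) (a : Ω) (u : V → ℝ) :
    fw S Q (l ++ [a]) u = stp S Q a (fw S Q l u) := by
  rw [fw_append]; rfl

theorem stp_bck (a : Ω) (u v : V → ℝ) :
    ∑ z, stp S Q a u z * v z = ∑ z, u z * bck S Q a v z := by
  unfold stp bck
  rw [avg_symm, ← Equiv.sum_comp (S.T a) (fun z => u z * avg Q (S.good a) v ((S.T a).symm z))]
  refine Finset.sum_congr rfl fun z _ => ?_
  rw [Equiv.symm_apply_apply]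

theorem fw_bw (l : List Ω) (u v : V → ℝ) :
    ∑ z, fw S Q l u z * v z = ∑ z, u z * bw S Q l v z := by
  induction l generalizing u with
  | nil => rfl
  | cons a l ih =>
    show ∑ z, fw S Q l (stp S Q a u) z * v z = ∑ z, u z * bck S Q a (bw S Q l v) z
    rw [ih, stp_bck]

/-- The kernel and its transpose. -/
theorem fw_single (l : List Ω) (x x' : V) :
    fw S Q l (Pi.single x 1) x' = bw S Q l (Pi.single x' 1) x := by
  have h := fw_bw S Q l (Pi.single x 1) (Pi.single x' 1)
  have h1 : ∑ z, fw S Q l (Pi.single x 1) z * (Pi.single x' (1 : ℝ) : V → ℝ) z =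
      fw S Q l (Pi.single x 1) x' := by
    rw [Finset.sum_eq_single x']
    · simp
    · intro b _ hb; simp [Pi.single_eq_of_ne hb]
    · intro h; exact absurd (Finset.mem_univ _) h
  have h2 : ∑ z, (Pi.single x (1 : ℝ) : V → ℝ) z * bw S Q l (Pi.single x' 1) z =
      bw S Q l (Pi.single x' 1) x := by
    rw [Finset.sum_eq_single x]
    · simp
    · intro b _ hb; simp [Pi.single_eq_of_ne hb]
    · intro h; exact absurd (Finset.mem_univ _) h
  rw [← h1, h, h2]

variable {S Q}

/-- All the sets of good windows are disjoint. -/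
def AllDis (S : Slab V Ω) (Q : Finset V) : Prop := ∀ a, Dis Q (S.good a)

theorem stp_nonneg (hD : AllDis S Q) (a : Ω) {u : V → ℝ} (hu : ∀ z, 0 ≤ u z) (z : V) :
    0 ≤ stp S Q a u z := avg_nonneg (hD a) (fun _ => hu _) z

theorem stp_le (hD : AllDis S Q) (a : Ω) {u : V → ℝ} {U : ℝ} (hu : ∀ z, u z ≤ U) (z : V) :
    stp S Q a u z ≤ U := avg_le (hD a) (fun _ => hu _) z

theorem stp_sum (a : Ω) (u : V → ℝ) : ∑ z, stp S Q a u z = ∑ z, u z := by
  unfold stp
  rw [avg_sum]
  exact Equiv.sum_comp (S.T a) u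

theorem bck_nonneg (hD : AllDis S Q) (a : Ω) {u : V → ℝ} (hu : ∀ z, 0 ≤ u z) (z : V) :
    0 ≤ bck S Q a u z := avg_nonneg (hD a) hu _

theorem bck_le (hD : AllDis S Q) (a : Ω) {u : V → ℝ} {U : ℝ} (hu : ∀ z, u z ≤ U) (z : V) :
    bck S Q a u z ≤ U := avg_le (hD a) hu _

theorem bck_sum (a : Ω) (u : V → ℝ) : ∑ z, bck S Q a u z = ∑ z, u z := by
  unfold bck
  rw [← avg_sum Q (S.good a) u]
  exact Equiv.sum_comp (S.T a).symm (avg Q (S.good a) u)

theorem fw_nonneg (hD : AllDis S Q) (l : List Ω) {u : V → ℝ} (hu : ∀ z, 0 ≤ u z) (z : V) :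
    0 ≤ fw S Q l u z := by
  induction l generalizing u with
  | nil => exact hu z
  | cons a l ih => exact ih (fun z => stp_nonneg hD a hu z)

theorem fw_le (hD : AllDis S Q) (l : List Ω) {u : V → ℝ} {U : ℝ} (hu : ∀ z, u z ≤ U) (z : V) :
    fw S Q l u z ≤ U := by
  induction l generalizing u with
  | nil => exact hu z
  | cons a l ih => exact ih (fun z => stp_le hD a hu z)

theorem fw_sum (l : List Ω) (u : V → ℝ) : ∑ z, fw S Q l u z = ∑ z, u z := by
  induction l generalizing u with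
  | nil => rfl
  | cons a l ih => exact (ih _).trans (stp_sum a u)

theorem bw_nonneg (hD : AllDis S Q) (l : List Ω) {u : V → ℝ} (hu : ∀ z, 0 ≤ u z) (z : V) :
    0 ≤ bw S Q l u z := by
  induction l generalizing z with
  | nil => exact hu z
  | cons a l ih => exact bck_nonneg hD a ih z

theorem bw_le (hD : AllDis S Q) (l : List Ω) {u : V → ℝ} {U : ℝ} (hu : ∀ z, u z ≤ U) (z : V) :
    bw S Q l u z ≤ U := by
  induction l generalizing z with
  | nil => exact hu z
  | cons a l ih => exact bck_le hD a ih z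

theorem bw_sum (l : List Ω) (u : V → ℝ) : ∑ z, bw S Q l u z = ∑ z, u z := by
  induction l with
  | nil => rfl
  | cons a l ih => exact (bck_sum a _).trans ih

end Slab

end Pool.Agent.Stirring.QK
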