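import Pool.Agent.Lib.MP_6c3d62_pr.Mg.G085
import Pool.Agent.Lib.MP_6c3d62_pr.Defs

/-! One-particle heat semigroup for arbitrary rates. -/

open Finset

set_option linter.unusedSectionVars false

namespace Pool.Agent.Stirring.QK

section Intertwine

variable {E F : Type*} [NormedAddCommGroup E] [NormedSpace ℝ E] [NormedAddCommGroup F]
  [NormedSpace ℝ F] [FiniteDimensional ℝ E] [FiniteDimensional ℝ F]

theorem pow_intertwine {A : E →L[ℝ] E} {B : F →L[ℝ] F} {T : E →L[ℝ] F}
    (h : ∀ x, T (A x) = B (T x)) (n : ℕ) (x : E) : T ((A ^ n) x) = (B ^ n) (T x) := by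
  induction n generalizing x with
  | zero => rfl
  | succ n ih =>
    rw [pow_succ, pow_succ]
    show T ((A ^ n) (A x)) = (B ^ n) (B (T x))
    rw [ih, h]

/-- Exponentials of intertwined operators are intertwined. -/
theorem exp_intertwine {A : E →L[ℝ] E} {B : F →L[ℝ] F} {T : E →L[ℝ] F}
    (h : ∀ x, T (A x) = B (T x)) (s : ℝ) (x : E) :
    T (NormedSpace.exp (s • A) x) = NormedSpace.exp (s • B) (T x) := by
  have : CompleteSpace E := FiniteDimensional.complete ℝ E
  have : CompleteSpace F := FiniteDimensional.complete ℝ F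
  have h1 := ((NormedSpace.exp_series_hasSum_exp' (𝕂 := ℝ) (s • A)).mapL
    (ContinuousLinearMap.apply ℝ E x)).mapL T
  have h2 := (NormedSpace.exp_series_hasSum_exp' (𝕂 := ℝ) (s • B)).mapL
    (ContinuousLinearMap.apply ℝ F (T x))
  refine h1.unique (h2.congr_fun ?_ |> fun h => h)
  intro n
  simp only [ContinuousLinearMap.apply_apply, smul_pow, map_smul]
  rw [pow_intertwine h]

end Intertwine

variable {V : Type*} [Fintype V] [DecidableEq V]

/-- The generator of the one-particle walk. -/
noncomputable def lapLin (c : V × V → ℝ) : (V → ℝ) →ₗ[ℝ] (V → ℝ) where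
  toFun G := fun x => ∑ p : V × V, c p * (G (Equiv.swap p.1 p.2 x) - G x)
  map_add' f g := by
    funext x
    simp only [Pi.add_apply, ← Finset.sum_add_distrib]
    refine Finset.sum_congr rfl fun p _ => by ring
  map_smul' r f := by
    funext x
    simp only [Pi.smul_apply, smul_eq_mul, RingHom.id_apply, Finset.mul_sum]
    refine Finset.sum_congr rfl fun p _ => by ring

noncomputable def lap (c : V × V → ℝ) : (V → ℝ) →L[ℝ] (V → ℝ) :=
  LinearMap.toContinuousLinearMap (lapLin c)

theorem lap_apply (c : V × V → ℝ) (G : V → ℝ) (x : V) :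
    lap c G x = ∑ p : V × V, c p * (G (Equiv.swap p.1 p.2 x) - G x) := rfl

/-- The heat semigroup on functions of one particle. -/
noncomputable def heat (c : V × V → ℝ) (s : ℝ) : (V → ℝ) →L[ℝ] (V → ℝ) :=
  NormedSpace.exp (s • lap c)

/-- The algebra of operators. -/
abbrev OpV (V : Type*) [Fintype V] := (V → ℝ) →L[ℝ] (V → ℝ)

noncomputable instance opVRat : NormedAlgebra ℚ (OpV V) := NormedAlgebra.restrictScalars ℚ ℝ (OpV V)

/-- Evaluation at a function and a point. -/
noncomputable def evV (G : V → ℝ) (x : V) : OpV V →L[ℝ] ℝ :=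
  (ContinuousLinearMap.proj (R := ℝ) (φ := fun _ : V => ℝ) x).comp
    (ContinuousLinearMap.apply ℝ (V → ℝ) G)

theorem evV_apply (G : V → ℝ) (x : V) (A : OpV V) : evV G x A = A G x := rfl

theorem heat_zero (c : V × V → ℝ) (G : V → ℝ) : heat c 0 G = G := by
  unfold heat
  rw [zero_smul, NormedSpace.exp_zero]
  rfl

theorem heat_add (c : V × V → ℝ) (s u : ℝ) (G : V → ℝ) :
    heat c (s + u) G = heat c s (heat c u G) := by
  unfold heat
  rw [add_smul, NormedSpace.exp_add_of_commute]
  · rfl
  · exact (Commute.refl _).smul_left _ |>.smul_right _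

theorem heat_comm (c : V × V → ℝ) (s : ℝ) (G : V → ℝ) :
    heat c s (lap c G) = lap c (heat c s G) :=
  (exp_intertwine (A := lap c) (B := lap c) (T := lap c) (fun _ => rfl) s G).symm

theorem heat_hasDerivAt (c : V × V → ℝ) (G : V → ℝ) (s : ℝ) (x : V) :
    HasDerivAt (fun u => heat c u G x) (lap c (heat c s G) x) s := by
  have h := hasDerivAt_exp_smul_const (𝕂 := ℝ) (lap c) s
  have h2 := (evV G x).hasFDerivAt.comp_hasDerivAt s h
  have h3 : HasDerivAt (fun u => heat c u G x) (heat c s (lap c G) x) s := h2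
  rwa [heat_comm] at h3

/-- The semigroup commutes with everything which commutes with the generator. -/
theorem heat_intertwine {V' : Type*} [Fintype V'] [DecidableEq V'] {c : V × V → ℝ}
    {c' : V' × V' → ℝ} (T : (V → ℝ) →L[ℝ] (V' → ℝ)) (h : ∀ G, T (lap c G) = lap c' (T G)) (s : ℝ)
    (G : V → ℝ) : T (heat c s G) = heat c' s (T G) :=
  exp_intertwine h s G

/-- The total rate. -/
noncomputable def totV (c : V × V → ℝ) : ℝ := ∑ p, c p

/-- The step operator. -/
noncomputable def stepLinV (c : V × V → ℝ) : (V → ℝ) →ₗ[ℝ] (V → ℝ) where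
  toFun G := fun x => ∑ p : V × V, c p * G (Equiv.swap p.1 p.2 x)
  map_add' f g := by
    funext x
    simp only [Pi.add_apply, mul_add, Finset.sum_add_distrib]
  map_smul' r f := by
    funext x
    simp only [Pi.smul_apply, smul_eq_mul, RingHom.id_apply, Finset.mul_sum]
    refine Finset.sum_congr rfl fun p _ => by ring

/-- The step operator. -/
noncomputable def stepV (c : V × V → ℝ) : OpV V := LinearMap.toContinuousLinearMap (stepLinV c)

theorem stepV_apply (c : V × V → ℝ) (G : V → ℝ) (x : V) :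
    stepV c G x = ∑ p : V × V, c p * G (Equiv.swap p.1 p.2 x) := rfl

theorem lap_eq (c : V × V → ℝ) : lap c = stepV c - totV c • (1 : OpV V) := by
  refine ContinuousLinearMap.ext fun G => ?_
  funext x
  have h : (stepV c - totV c • (1 : OpV V)) G x = stepV c G x - totV c * G x := rfl
  rw [h, lap_apply, stepV_apply, totV, Finset.sum_mul, ← Finset.sum_sub_distrib]
  exact Finset.sum_congr rfl fun p _ => by ring

theorem expV_smul_one (r : ℝ) : NormedSpace.exp (r • (1 : OpV V)) = Real.exp r • (1 : OpV V) := by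
  have h := NormedSpace.exp_series_hasSum_exp' (𝕂 := ℝ) (r • (1 : OpV V))
  have h2 : HasSum (fun n : ℕ => ((n.factorial : ℝ))⁻¹ • (r • (1 : OpV V)) ^ n)
      (Real.exp r • (1 : OpV V)) := by
    have h3 : HasSum (fun n : ℕ => ((n.factorial : ℝ))⁻¹ • r ^ n) (Real.exp r) := by
      have := NormedSpace.exp_series_hasSum_exp' (𝕂 := ℝ) r
      rwa [← Real.exp_eq_exp_ℝ] at this
    have h4 := h3.smul_const (1 : OpV V)
    refine h4.congr_fun ?_ |> fun h => h
    intro n
    rw [smul_pow, one_pow, smul_assoc]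
  exact h.unique h2

theorem heat_eq (c : V × V → ℝ) (s : ℝ) :
    heat c s = Real.exp (-(s * totV c)) • NormedSpace.exp (s • stepV c) := by
  have h1 : s • lap c = s • stepV c + (-(s * totV c)) • (1 : OpV V) := by
    rw [lap_eq]
    module
  unfold heat
  rw [h1, NormedSpace.exp_add_of_commute (Commute.smul_right (Commute.one_right _) _),
    expV_smul_one, mul_smul_comm, mul_one]

theorem heat_hasSum (c : V × V → ℝ) (s : ℝ) (G : V → ℝ) (x : V) :
    HasSum (fun n : ℕ => Real.exp (-(s * totV c)) * (s ^ n / n.factorial * ((stepV c ^ n) G x)))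
      (heat c s G x) := by
  have h := (NormedSpace.exp_series_hasSum_exp' (𝕂 := ℝ) (s • stepV c)).mapL (evV G x)
  have h2 := h.mul_left (Real.exp (-(s * totV c)))
  have h3 : heat c s G x = Real.exp (-(s * totV c)) * evV G x (NormedSpace.exp (s • stepV c)) := by
    rw [heat_eq]; rfl
  rw [h3]
  refine h2.congr_fun ?_ |> fun h => h
  intro n
  congr 1
  rw [smul_pow, ← smul_assoc, map_smul, evV_apply, smul_eq_mul, smul_eq_mul]
  rw [div_eq_inv_mul]

theorem stepV_pow_nonneg {c : V × V → ℝ} (hc : ∀ p, 0 ≤ c p) {G : V → ℝ} (hG : ∀ x, 0 ≤ G x)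
    (n : ℕ) : ∀ x, 0 ≤ (stepV c ^ n) G x := by
  induction n with
  | zero => intro x; simpa using hG x
  | succ n ih =>
    intro x
    rw [pow_succ']
    show 0 ≤ stepV c ((stepV c ^ n) G) x
    rw [stepV_apply]
    exact Finset.sum_nonneg fun p _ => mul_nonneg (hc p) (ih _)

theorem heat_nonneg {c : V × V → ℝ} (hc : ∀ p, 0 ≤ c p) {s : ℝ} (hs : 0 ≤ s) {G : V → ℝ}
    (hG : ∀ x, 0 ≤ G x) (x : V) : 0 ≤ heat c s G x := by
  refine (heat_hasSum c s G x).nonneg fun n => ?_
  have := stepV_pow_nonneg hc hG n x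
  positivity

/-- If the generator kills `G` then so does the semigroup minus one. -/
theorem heat_of_lap_eq_zero {c : V × V → ℝ} {G : V → ℝ} (h : lap c G = 0) (s : ℝ) :
    heat c s G = G := by
  have h1 := (NormedSpace.exp_series_hasSum_exp' (𝕂 := ℝ) (s • lap c)).mapL
    (ContinuousLinearMap.apply ℝ (V → ℝ) G)
  have h2 := hasSum_single (f := fun n : ℕ => (ContinuousLinearMap.apply ℝ (V → ℝ) G)
    ((n.factorial : ℝ)⁻¹ • (s • lap c) ^ n)) 0 (by
      intro n hn
      obtain ⟨m, rfl⟩ := Nat.exists_eq_succ_of_ne_zero hn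
      show ((m.succ.factorial : ℝ)⁻¹ • (s • lap c) ^ (m + 1)) G = 0
      rw [pow_succ]
      show ((m.succ.factorial : ℝ)⁻¹) • (((s • lap c) ^ m) (s • lap c G)) = 0
      rw [h, smul_zero, map_zero, smul_zero])
  have h3 := h1.unique h2
  have h4 : heat c s G = (ContinuousLinearMap.apply ℝ (V → ℝ) G)
    ((Nat.factorial 0 : ℝ)⁻¹ • (s • lap c) ^ 0) := h3
  rw [h4]
  simp

theorem heat_const (c : V × V → ℝ) (s r : ℝ) : heat c s (fun _ => r) = fun _ => r := by
  refine heat_of_lap_eq_zero ?_ s
  funext x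
  rw [lap_apply]
  simp

theorem heat_mono {c : V × V → ℝ} (hc : ∀ p, 0 ≤ c p) {s : ℝ} (hs : 0 ≤ s) {G G' : V → ℝ}
    (h : ∀ x, G x ≤ G' x) (x : V) : heat c s G x ≤ heat c s G' x := by
  have h1 := heat_nonneg hc hs (G := G' - G) (fun y => by
    rw [Pi.sub_apply]; linarith [h y]) x
  rw [map_sub, Pi.sub_apply] at h1
  linarith

theorem lap_symm (c : V × V → ℝ) (F G : V → ℝ) :
    ∑ x, F x * lap c G x = ∑ x, G x * lap c F x := by
  simp only [lap_apply, Finset.mul_sum]
  rw [Finset.sum_comm, Finset.sum_comm (f := fun x p => G x * (c p * (F _ - F x)))]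
  refine Finset.sum_congr rfl fun p _ => ?_
  have h1 : ∑ x, F x * (c p * (G (Equiv.swap p.1 p.2 x) - G x)) =
      c p * (∑ x, F x * G (Equiv.swap p.1 p.2 x) - ∑ x, F x * G x) := by
    rw [← Finset.sum_sub_distrib, Finset.mul_sum]
    exact Finset.sum_congr rfl fun x _ => by ring
  have h2 : ∑ x, G x * (c p * (F (Equiv.swap p.1 p.2 x) - F x)) =
      c p * (∑ x, G x * F (Equiv.swap p.1 p.2 x) - ∑ x, F x * G x) := by
    rw [← Finset.sum_sub_distrib, Finset.mul_sum]
    exact Finset.sum_congr rfl fun x _ => by ring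
  rw [h1, h2, ← Equiv.sum_comp (Equiv.swap p.1 p.2) (fun x => F x * G (Equiv.swap p.1 p.2 x))]
  congr 2
  refine Finset.sum_congr rfl fun x _ => ?_
  rw [Equiv.swap_apply_self, mul_comm]

theorem heat_symm (c : V × V → ℝ) (s : ℝ) (F G : V → ℝ) :
    ∑ x, F x * heat c s G x = ∑ x, G x * heat c s F x := by
  -- `r ↦ ∑ heat (s - r) F * heat r G` is constant
  set u : ℝ → ℝ := fun r => ∑ x, heat c (s - r) F x * heat c r G x with hu
  have hd : ∀ r, HasDerivAt u 0 r := by
    intro r
    have h1 : ∀ x ∈ (Finset.univ : Finset V), HasDerivAt (fun r => heat c (s - r) F x * heat c r G x)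
        (-(lap c (heat c (s - r) F) x) * heat c r G x +
          heat c (s - r) F x * lap c (heat c r G) x) r := by
      intro x _
      have h2 : HasDerivAt (fun r => heat c (s - r) F x) (-(lap c (heat c (s - r) F) x)) r := by
        have h3 : HasDerivAt (fun r : ℝ => s - r) (-1) r := by
          simpa using (hasDerivAt_id r).const_sub s
        have h4 := (heat_hasDerivAt c F (s - r) x).comp r h3
        refine h4.congr_deriv ?_
        ring
      exact h2.mul (heat_hasDerivAt c G r x)
    have h5 := HasDerivAt.fun_sum h1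
    refine h5.congr_deriv ?_
    rw [Finset.sum_add_distrib]
    have h6 := lap_symm c (heat c (s - r) F) (heat c r G)
    rw [h6]
    have h7 : ∑ x, -(lap c (heat c (s - r) F) x) * heat c r G x =
        -(∑ x, heat c r G x * lap c (heat c (s - r) F) x) := by
      rw [← Finset.sum_neg_distrib]
      exact Finset.sum_congr rfl fun x _ => by ring
    rw [h7]; ring
  have h1 : u s = u 0 := is_const_of_deriv_eq_zero (fun r => (hd r).differentiableAt)
    (fun r => (hd r).deriv) s 0
  have h2 : u s = ∑ x, F x * heat c s G x := by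
    simp only [hu, sub_self, heat_zero]
  have h3 : u 0 = ∑ x, G x * heat c s F x := by
    simp only [hu, sub_zero, heat_zero]
    exact Finset.sum_congr rfl fun x _ => mul_comm _ _
  rw [← h2, h1, h3]

theorem heat_sq {c : V × V → ℝ} (hc : ∀ p, 0 ≤ c p) {s : ℝ} (hs : 0 ≤ s) (G : V → ℝ) (x : V) :
    (heat c s G x) ^ 2 ≤ heat c s (fun y => G y ^ 2) x := by
  set m := heat c s G x with hm
  have h := heat_nonneg hc hs (G := (fun y => G y ^ 2) + (-(2 * m)) • G + (fun _ => m ^ 2))
    (fun y => by
      simp only [Pi.add_apply, Pi.smul_apply, smul_eq_mul]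
      nlinarith [sq_nonneg (G y - m)]) x
  rw [map_add, map_add, map_smul, heat_const] at h
  simp only [Pi.add_apply, Pi.smul_apply, smul_eq_mul] at h
  rw [← hm] at h
  nlinarith

/-- The function `σ ↦ G (σ⁻¹ x)` as a linear map. -/
noncomputable def lift1 (x : V) : (V → ℝ) →L[ℝ] Hier.Fn V :=
  LinearMap.toContinuousLinearMap
    { toFun := fun G => fun σ : Equiv.Perm V => G (σ.symm x)
      map_add' := fun _ _ => rfl
      map_smul' := fun _ _ => rfl }

theorem lift1_apply (x : V) (G : V → ℝ) (σ : Equiv.Perm V) : lift1 x G σ = G (σ.symm x) := rfl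

/-- Link with stirring: one particle of the interchange process is the walk. -/
theorem sg_one' (c : V × V → ℝ) (s : ℝ) (G : V → ℝ) (x : V) (σ : Equiv.Perm V) :
    Hier.sg c s (fun σ => G (σ.symm x)) σ = heat c s G (σ.symm x) := by
  have h : ∀ G, lift1 x (lap c G) = Hier.gen c (lift1 x G) := by
    intro G
    funext τ
    rw [lift1_apply, lap_apply, Hier.gen_apply]
    refine Finset.sum_congr rfl fun p _ => ?_
    rw [lift1_apply, lift1_apply]
    rfl
  have h2 := exp_intertwine (A := lap c) (B := Hier.gen c) (T := lift1 x) h s G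
  exact (congrFun h2 σ).symm

theorem sg_one (c : V × V → ℝ) (s : ℝ) (G : V → ℝ) (x : V) :
    Hier.sg c s (fun σ => G (σ.symm x)) 1 = heat c s G x := sg_one' c s G x 1

end Pool.Agent.Stirring.QK
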