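import Pool.Agent.Lib.MP_6c3d62_pr.Mg.G062

/-! The numerical conditions, and ROW P (parameters). -/

open Finset Filter

set_option linter.unusedSectionVars false

namespace Pool.Agent.Stirring.QK

/-- The numerical conditions of block (2). `c` = constant of `hk_ge d`, `p` = density of the
windows, `p'` = lower bound for the probability of a good window, `α` = inverse length of the
exponential test functions, `m₀` = number of slabs before which no lower bound is claimed. -/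
structure Par (d L b J Jg R m₀ r : ℕ) (c h δ lam ρ α p p' Mm c1 : ℝ) : Prop where
  hL : 2 ≤ L
  hb : 1 ≤ b
  hbL : b ≤ L
  hJg : 1 ≤ Jg
  hh : 1 ≤ h
  hδ : 0 < δ
  hlam : 0 < lam
  hα : 0 ≤ α
  hp : 0 ≤ p
  hp'0 : 0 ≤ p'
  hp'1 : p' ≤ 1
  u1 : 16 * (lam / δ) * (1 / Real.sqrt h + 1 / L) ^ d ≤ 1
  u2 : 2 * (lam / δ) * ((b : ℝ) ^ d * (d * b) * (1 / Real.sqrt h)) ≤ 1
  u3 : 8 * p * (d * b) * Real.sqrt J ≤ δ * Real.sqrt h
  u4 : (1 - p') ^ Jg ≤ Real.exp (-lam)
  u5 : 2 * d * Real.exp (2 * (Jg * h) * (Real.cosh α - 1) - α * ρ) ≤ Real.exp (-lam)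
  u6 : 4 * d * (Real.exp (2 * h * (Real.cosh α - 1)) * (1 + p * (Real.exp (α * b) - 1))) ^
    (R * (2 * Jg)) * Real.exp (-(α * ρ)) ≤ Real.exp (-lam)
  u8 : 2 * ((b : ℝ) ^ d * (1 / Real.sqrt h + 1 / L) ^ d) + 32 * lam / (b : ℝ) ^ d ≤ Mm
  l2 : 8 * δ + 32 * lam / (b : ℝ) ^ d ≤ 1 / 2
  l3 : (b : ℝ) ≤ ρ
  l4 : 4 * ρ ≤ c * Real.sqrt ((m₀ + 1) * h)
  l5 : 2 * (R * (2 * Jg) + m₀ + Jg) ≤ J
  l6 : (δ / 2 + 8 * lam / (b : ℝ) ^ d) *
      (8 * (1 / Real.sqrt (Jg * h) + 1 / L) ^ d + (8 * δ + 32 * lam / (b : ℝ) ^ d) ^ R) ≤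
    c * (1 / Real.sqrt ((J + 1) * h)) ^ d / 16
  l7 : c1 / (r : ℝ) ^ d ≤ c * (1 / Real.sqrt ((J + 1) * h)) ^ d / 16
  l8 : (r : ℝ) ≤ ρ
  l9 : 4 * b ≤ r

/-- The hypotheses of the choice of the parameters; `T = log L`. -/
structure P55 (d a1 a2 R A : ℕ) (c K T : ℝ) (L b : ℕ) (h p : ℝ) : Prop where
  hd : 2 ≤ d
  hc : 0 < c
  ha1 : 4 * d + 8 ≤ a1
  hK : 1 ≤ K
  hR : R = d * (a1 + a2 + 1) + 1
  hA : d + 10 ≤ A
  T1 : (10 : ℝ) ^ 6 ≤ T
  TK : K ≤ T
  Tc : 1 ≤ c * T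
  Tc' : c ≤ T
  Td : (6 : ℝ) ^ d ≤ T
  TR : (40 : ℝ) ^ R ≤ T
  Ta : (2 : ℝ) ^ (a1 + a2) ≤ T
  Ts : (16 * ((R : ℝ) + 1)) ^ 2 * K ≤ c ^ 2 * T
  TL : T ^ (A * (a1 + a2) + 15) ≤ L
  b1 : T ^ A ≤ b
  b2 : (b : ℝ) ≤ 2 * T ^ A
  h1 : (b : ℝ) ^ a1 / 2 ≤ h
  h2 : h ≤ (b : ℝ) ^ a1
  p1 : 1 / (b : ℝ) ^ a2 ≤ p
  p2 : p ≤ 1

namespace P55

variable {d a1 a2 R A : ℕ} {c K T : ℝ} {L b : ℕ} {h p : ℝ}

theorem T0 (H : P55 d a1 a2 R A c K T L b h p) : 1 ≤ T := le_trans (by norm_num) H.T1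

theorem bT (H : P55 d a1 a2 R A c K T L b h p) {n : ℕ} (hn : n ≤ d + 10) : T ^ n ≤ b :=
  (pow_le_pow_right₀ H.T0 (hn.trans H.hA)).trans H.b1

theorem b0 (H : P55 d a1 a2 R A c K T L b h p) : (1 : ℝ) ≤ b := by
  have := H.bT (n := 0) (by omega)
  simpa using this

theorem d_le (H : P55 d a1 a2 R A c K T L b h p) : (d : ℝ) ≤ T := by
  have h1 : d < 6 ^ d := Nat.lt_pow_self (by norm_num)
  have h2 : (d : ℝ) ≤ (6 : ℝ) ^ d := by exact_mod_cast h1.le
  exact h2.trans H.Td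

theorem R_le (H : P55 d a1 a2 R A c K T L b h p) : 2 * (R : ℝ) + 1 ≤ T := by
  have h1 : 2 * R + 1 ≤ 40 ^ R := by
    have hR : 1 ≤ R := by rw [H.hR]; omega
    have h2 : ∀ n : ℕ, 1 ≤ n → 2 * n + 1 ≤ 40 ^ n := by
      intro n hn
      induction n, hn using Nat.le_induction with
      | base => norm_num
      | succ n hn ih => rw [pow_succ]; omega
    exact h2 R hR
  have h2 : (2 * (R : ℝ) + 1) ≤ (40 : ℝ) ^ R := by exact_mod_cast h1
  exact h2.trans H.TR

theorem h_ge (H : P55 d a1 a2 R A c K T L b h p) : ((b : ℝ) ^ (2 * d + 4) / 2) ^ 2 ≤ h := by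
  have h1 : (b : ℝ) ^ (4 * d + 8) ≤ (b : ℝ) ^ a1 := pow_le_pow_right₀ H.b0 H.ha1
  have h2 : ((b : ℝ) ^ (2 * d + 4) / 2) ^ 2 = (b : ℝ) ^ (4 * d + 8) / 4 := by
    rw [div_pow, ← pow_mul]
    norm_num
    congr 2
    ring
  have h3 := H.h1
  have h4 : 0 ≤ (b : ℝ) ^ (4 * d + 8) := by positivity
  rw [h2]
  linarith

theorem sqrt_h (H : P55 d a1 a2 R A c K T L b h p) : (b : ℝ) ^ (2 * d + 4) / 2 ≤ Real.sqrt h :=
  Real.le_sqrt_of_sq_le H.h_ge

theorem h_big (H : P55 d a1 a2 R A c K T L b h p) : (b : ℝ) ≤ h := by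
  have h1 : (b : ℝ) ^ 2 ≤ (b : ℝ) ^ a1 := pow_le_pow_right₀ H.b0 (by have := H.ha1; omega)
  have h2 : 2 ≤ (b : ℝ) := by
    have := H.bT (n := 1) (by omega)
    rw [pow_one] at this
    linarith [H.T1]
  have := H.h1
  nlinarith

theorem h_one (H : P55 d a1 a2 R A c K T L b h p) : 1 ≤ h := H.b0.trans H.h_big

theorem lam_ge (H : P55 d a1 a2 R A c K T L b h p) : T ≤ K * T := by
  nlinarith [H.T0, H.hK]

theorem lam_le (H : P55 d a1 a2 R A c K T L b h p) : K * T ≤ T ^ 2 := by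
  nlinarith [H.T0, H.TK]

theorem p_pos (H : P55 d a1 a2 R A c K T L b h p) : 0 < p := by
  have h1 : (0 : ℝ) < 1 / (b : ℝ) ^ a2 := by
    have := H.b0
    positivity
  exact h1.trans_le H.p1

theorem inv_p (H : P55 d a1 a2 R A c K T L b h p) : 1 / p ≤ (b : ℝ) ^ a2 := by
  have hb : (0 : ℝ) < (b : ℝ) ^ a2 := by
    have := H.b0
    positivity
  have h1 := H.p1
  rw [div_le_iff₀ hb] at h1
  rw [div_le_iff₀ H.p_pos]
  linarith

/-! The choices. -/

/-- `J_g`. -/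
noncomputable def Jg (K T p : ℝ) : ℕ := ⌈2 * (K * T) / p⌉₊

/-- `M`. -/
noncomputable def M (T : ℝ) : ℕ := ⌈T⌉₊ ^ 2

theorem M_ge (H : P55 d a1 a2 R A c K T L b h p) : T ^ 2 ≤ (M T : ℝ) := by
  have h1 : T ≤ (⌈T⌉₊ : ℝ) := Nat.le_ceil T
  unfold M
  push_cast
  exact pow_le_pow_left₀ (by linarith [H.T0]) h1 2

theorem M_le (H : P55 d a1 a2 R A c K T L b h p) : (M T : ℝ) ≤ 4 * T ^ 2 := by
  have h1 : (⌈T⌉₊ : ℝ) < T + 1 := Nat.ceil_lt_add_one (by linarith [H.T0])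
  unfold M
  push_cast
  have h2 : (⌈T⌉₊ : ℝ) ≤ 2 * T := by linarith [H.T0]
  have h3 : (0 : ℝ) ≤ (⌈T⌉₊ : ℝ) := by positivity
  nlinarith

theorem Jg_ge (_H : P55 d a1 a2 R A c K T L b h p) : 2 * (K * T) / p ≤ (Jg K T p : ℝ) :=
  Nat.le_ceil _

theorem lam_div (H : P55 d a1 a2 R A c K T L b h p) : 1 ≤ K * T / p := by
  rw [le_div_iff₀ H.p_pos, one_mul]
  linarith [H.lam_ge, H.T0, H.p2]

theorem Jg_one (H : P55 d a1 a2 R A c K T L b h p) : (1 : ℝ) ≤ (Jg K T p : ℝ) := by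
  have h1 := H.Jg_ge
  have h2 := H.lam_div
  have h3 : 2 * (K * T) / p = 2 * (K * T / p) := by ring
  rw [h3] at h1
  linarith

theorem Jg_le (H : P55 d a1 a2 R A c K T L b h p) : (Jg K T p : ℝ) ≤ 3 * (K * T) / p := by
  have h0 : 0 ≤ 2 * (K * T) / p := by
    have := H.lam_div
    have h3 : 2 * (K * T) / p = 2 * (K * T / p) := by ring
    rw [h3]; linarith
  have h1 : (Jg K T p : ℝ) < 2 * (K * T) / p + 1 := Nat.ceil_lt_add_one h0
  have h2 := H.lam_div
  have h3 : 2 * (K * T) / p = 2 * (K * T / p) := by ring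
  have h4 : 3 * (K * T) / p = 3 * (K * T / p) := by ring
  rw [h3] at h1
  rw [h4]
  linarith

theorem pJg_le (H : P55 d a1 a2 R A c K T L b h p) : p * (Jg K T p : ℝ) ≤ 3 * (K * T) := by
  have h1 := H.Jg_le
  rw [le_div_iff₀ H.p_pos] at h1
  linarith

theorem pJ_le (H : P55 d a1 a2 R A c K T L b h p) :
    p * (4 * M T * Jg K T p : ℝ) ≤ 48 * T ^ 4 := by
  have h1 := H.pJg_le
  have h2 := H.M_le
  have h3 := H.lam_le
  have h4 := H.T0
  have h5 : p * (4 * M T * Jg K T p : ℝ) = 4 * (M T : ℝ) * (p * (Jg K T p : ℝ)) := by ring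
  rw [h5]
  have h6 : 0 ≤ p * (Jg K T p : ℝ) := mul_nonneg H.p_pos.le (by positivity)
  calc 4 * (M T : ℝ) * (p * (Jg K T p : ℝ)) ≤ 4 * (4 * T ^ 2) * (3 * T ^ 2) := by
        apply mul_le_mul _ _ h6 (by positivity)
        · linarith
        · linarith
    _ = 48 * T ^ 4 := by ring

theorem J_le (H : P55 d a1 a2 R A c K T L b h p) :
    (4 * M T * Jg K T p : ℝ) ≤ 48 * T ^ 4 * (b : ℝ) ^ a2 := by
  have h1 := H.pJ_le
  have h2 := H.inv_p
  have h3 : (4 * M T * Jg K T p : ℝ) = (1 / p) * (p * (4 * M T * Jg K T p : ℝ)) := by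
    field_simp [H.p_pos.ne']
  rw [h3, mul_comm (48 * T ^ 4)]
  have h4 := H.T0
  apply mul_le_mul h2 h1 _ (by positivity)
  exact mul_nonneg H.p_pos.le (by positivity)

/-- `J b^a1` is a power of `log L`. -/
theorem Jb_le (H : P55 d a1 a2 R A c K T L b h p) :
    (4 * M T * Jg K T p : ℝ) * (b : ℝ) ^ a1 ≤ T ^ (A * (a1 + a2) + 6) := by
  have h1 := H.J_le
  have h0 := H.T0
  have hb := H.b0
  calc (4 * M T * Jg K T p : ℝ) * (b : ℝ) ^ a1 ≤ 48 * T ^ 4 * (b : ℝ) ^ a2 * (b : ℝ) ^ a1 :=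
        mul_le_mul_of_nonneg_right h1 (by positivity)
    _ = 48 * T ^ 4 * (b : ℝ) ^ (a1 + a2) := by rw [pow_add]; ring
    _ ≤ 48 * T ^ 4 * (2 * T ^ A) ^ (a1 + a2) := by
        apply mul_le_mul_of_nonneg_left _ (by positivity)
        exact pow_le_pow_left₀ (by positivity) H.b2 _
    _ = 48 * T ^ 4 * (2 ^ (a1 + a2) * T ^ (A * (a1 + a2))) := by rw [mul_pow, ← pow_mul]
    _ ≤ T * T ^ 4 * (T * T ^ (A * (a1 + a2))) := by
        apply mul_le_mul _ _ (by positivity) (by positivity)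
        · exact mul_le_mul_of_nonneg_right (by linarith [H.T1]) (by positivity)
        · exact mul_le_mul_of_nonneg_right H.Ta (by positivity)
    _ = T ^ (A * (a1 + a2) + 6) := by ring

theorem J_one (H : P55 d a1 a2 R A c K T L b h p) : (1 : ℝ) ≤ (4 * M T * Jg K T p : ℝ) := by
  have h1 := H.Jg_one
  have h2 := H.M_ge
  have h0 := H.T0
  have h3 : (1 : ℝ) ≤ M T := by nlinarith
  nlinarith

theorem Jb_le_L (H : P55 d a1 a2 R A c K T L b h p) :
    (4 * M T * Jg K T p : ℝ) * (b : ℝ) ^ a1 ≤ L :=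
  H.Jb_le.trans ((pow_le_pow_right₀ H.T0 (by omega)).trans H.TL)

theorem ba_le_L (H : P55 d a1 a2 R A c K T L b h p) : (b : ℝ) ^ a1 ≤ L := by
  refine le_trans ?_ H.Jb_le_L
  have h1 := H.J_one
  have hb := H.b0
  have : 0 < (b : ℝ) ^ a1 := by positivity
  nlinarith

theorem b4_le_L (H : P55 d a1 a2 R A c K T L b h p) : (b : ℝ) ^ (2 * d + 4) ≤ L :=
  (pow_le_pow_right₀ H.b0 (by have := H.ha1; omega)).trans H.ba_le_L

/-- The heat kernel at the time `h`. -/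
theorem s_le (H : P55 d a1 a2 R A c K T L b h p) :
    1 / Real.sqrt h + 1 / (L : ℝ) ≤ 3 / (b : ℝ) ^ (2 * d + 4) := by
  have hb := H.b0
  have hB : (0 : ℝ) < (b : ℝ) ^ (2 * d + 4) := by positivity
  have h1 : 1 / Real.sqrt h ≤ 1 / ((b : ℝ) ^ (2 * d + 4) / 2) :=
    one_div_le_one_div_of_le (by positivity) H.sqrt_h
  have h2 : 1 / (L : ℝ) ≤ 1 / (b : ℝ) ^ (2 * d + 4) := one_div_le_one_div_of_le hB H.b4_le_L
  have h3 : 1 / ((b : ℝ) ^ (2 * d + 4) / 2) = 2 / (b : ℝ) ^ (2 * d + 4) := by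
    field_simp
  calc 1 / Real.sqrt h + 1 / (L : ℝ) ≤ 2 / (b : ℝ) ^ (2 * d + 4) + 1 / (b : ℝ) ^ (2 * d + 4) := by
        rw [h3] at h1; linarith
    _ = 3 / (b : ℝ) ^ (2 * d + 4) := by ring

theorem s_nonneg (_H : P55 d a1 a2 R A c K T L b h p) :
    0 ≤ 1 / Real.sqrt h + 1 / (L : ℝ) := by positivity

theorem sd_le (H : P55 d a1 a2 R A c K T L b h p) :
    (1 / Real.sqrt h + 1 / (L : ℝ)) ^ d ≤ 3 / (b : ℝ) ^ (2 * d + 4) := by
  have h1 := H.s_le
  have h2 := H.s_nonneg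
  have hb := H.b0
  have hB : (b : ℝ) ≤ (b : ℝ) ^ (2 * d + 4) := by
    calc (b : ℝ) = (b : ℝ) ^ 1 := (pow_one _).symm
      _ ≤ _ := pow_le_pow_right₀ hb (by omega)
  have h3 : 1 / Real.sqrt h + 1 / (L : ℝ) ≤ 1 := by
    refine h1.trans ?_
    rw [div_le_one (by positivity)]
    have := H.bT (n := 1) (by omega)
    rw [pow_one] at this
    linarith [H.T1]
  calc (1 / Real.sqrt h + 1 / (L : ℝ)) ^ d ≤ (1 / Real.sqrt h + 1 / (L : ℝ)) ^ 1 :=
        pow_le_pow_of_le_one h2 h3 (by have := H.hd; omega)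
    _ = 1 / Real.sqrt h + 1 / (L : ℝ) := pow_one _
    _ ≤ _ := h1

/-! The conditions. Here `δ = 1 / b`. -/

theorem cu1 (H : P55 d a1 a2 R A c K T L b h p) :
    16 * (K * T / (1 / (b : ℝ))) * (1 / Real.sqrt h + 1 / (L : ℝ)) ^ d ≤ 1 := by
  have hb := H.b0
  have h1 := H.sd_le
  have h2 := H.lam_le
  have h0 := H.T0
  have hK := H.lam_ge
  have h3 : (b : ℝ) ^ 2 ≤ (b : ℝ) ^ (2 * d + 4) := pow_le_pow_right₀ hb (by omega)
  have h4 : (48 : ℝ) * T ^ 2 ≤ b := by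
    have := H.bT (n := 3) (by omega)
    have h5 : T ^ 3 = T * T ^ 2 := by ring
    have := H.T1
    nlinarith [sq_nonneg T]
  have h5 : K * T / (1 / (b : ℝ)) = K * T * b := by field_simp
  rw [h5]
  calc 16 * (K * T * b) * (1 / Real.sqrt h + 1 / (L : ℝ)) ^ d
      ≤ 16 * (T ^ 2 * b) * (3 / (b : ℝ) ^ (2 * d + 4)) := by
        apply mul_le_mul _ h1 (pow_nonneg H.s_nonneg _) (by positivity)
        have : K * T * b ≤ T ^ 2 * b := mul_le_mul_of_nonneg_right h2 (by positivity)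
        linarith
    _ = (48 * T ^ 2) * b / (b : ℝ) ^ (2 * d + 4) := by ring
    _ ≤ 1 := by
        rw [div_le_one (by positivity)]
        nlinarith

theorem cu2 (H : P55 d a1 a2 R A c K T L b h p) :
    2 * (K * T / (1 / (b : ℝ))) * ((b : ℝ) ^ d * (d * b) * (1 / Real.sqrt h)) ≤ 1 := by
  have hb := H.b0
  have h0 := H.T0
  have h2 := H.lam_le
  have hd := H.d_le
  have h1 : 1 / Real.sqrt h ≤ 2 / (b : ℝ) ^ (2 * d + 4) := by
    have h1 : 1 / Real.sqrt h ≤ 1 / ((b : ℝ) ^ (2 * d + 4) / 2) :=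
      one_div_le_one_div_of_le (by positivity) H.sqrt_h
    have h3 : 1 / ((b : ℝ) ^ (2 * d + 4) / 2) = 2 / (b : ℝ) ^ (2 * d + 4) := by field_simp
    rwa [h3] at h1
  have h5 : K * T / (1 / (b : ℝ)) = K * T * b := by field_simp
  have h6 : (b : ℝ) ^ (2 * d + 4) = (b : ℝ) ^ d * b ^ 2 * (b ^ (d + 2)) := by
    rw [← pow_add, ← pow_add]; congr 1; ring
  have h7 : (b : ℝ) ≤ (b : ℝ) ^ (d + 2) := by
    calc (b : ℝ) = (b : ℝ) ^ 1 := (pow_one _).symm
      _ ≤ _ := pow_le_pow_right₀ hb (by omega)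
  have h8 : 4 * T ^ 3 ≤ (b : ℝ) := by
    have := H.bT (n := 4) (by omega)
    have h5 : T ^ 4 = T * T ^ 3 := by ring
    have := H.T1
    have : 0 < T ^ 3 := by positivity
    nlinarith
  rw [h5]
  calc 2 * (K * T * b) * ((b : ℝ) ^ d * (d * b) * (1 / Real.sqrt h))
      ≤ 2 * (T ^ 2 * b) * ((b : ℝ) ^ d * (T * b) * (2 / (b : ℝ) ^ (2 * d + 4))) := by
        apply mul_le_mul _ _ (by positivity) (by positivity)
        · have : K * T * b ≤ T ^ 2 * b := mul_le_mul_of_nonneg_right h2 (by positivity)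
          linarith
        · apply mul_le_mul _ h1 (by positivity) (by positivity)
          apply mul_le_mul_of_nonneg_left _ (by positivity)
          exact mul_le_mul_of_nonneg_right hd (by positivity)
    _ = (4 * T ^ 3) * ((b : ℝ) ^ d * b ^ 2) / (b : ℝ) ^ (2 * d + 4) := by ring
    _ ≤ 1 := by
        rw [div_le_one (by positivity), h6, mul_comm]
        apply mul_le_mul_of_nonneg_left _ (by positivity)
        linarith

theorem cu3 (H : P55 d a1 a2 R A c K T L b h p) :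
    8 * p * (d * b) * Real.sqrt (4 * M T * Jg K T p : ℝ) ≤ 1 / (b : ℝ) * Real.sqrt h := by
  have hb := H.b0
  have h0 := H.T0
  have hp := H.p_pos
  have h1 : Real.sqrt (4 * M T * Jg K T p : ℝ) ≤ 7 * T ^ 2 / p := by
    apply Real.sqrt_le_iff.mpr
    refine ⟨by positivity, ?_⟩
    have h2 := H.pJ_le
    rw [div_pow, le_div_iff₀ (by positivity)]
    have h3 : (4 * M T * Jg K T p : ℝ) * p ^ 2 = p * (p * (4 * M T * Jg K T p : ℝ)) := by ring
    rw [h3]
    have h4 : 0 ≤ p * (4 * M T * Jg K T p : ℝ) := mul_nonneg hp.le (by positivity)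
    have h5 := H.p2
    have h6 : 0 < T ^ 4 := by positivity
    calc p * (p * (4 * M T * Jg K T p : ℝ)) ≤ 1 * (48 * T ^ 4) :=
          mul_le_mul h5 h2 h4 zero_le_one
      _ ≤ (7 * T ^ 2) ^ 2 := by ring_nf; linarith
  have h2 : (b : ℝ) ^ 8 ≤ (b : ℝ) ^ (2 * d + 4) :=
    pow_le_pow_right₀ hb (by have := H.hd; omega)
  have h3 := H.sqrt_h
  have h4 : 112 * T ^ 3 ≤ (b : ℝ) := by
    have := H.bT (n := 4) (by omega)
    have h5 : T ^ 4 = T * T ^ 3 := by ring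
    have := H.T1
    have : 0 < T ^ 3 := by positivity
    nlinarith
  have h5 := H.d_le
  calc 8 * p * (d * b) * Real.sqrt (4 * M T * Jg K T p : ℝ)
      ≤ 8 * p * (T * b) * (7 * T ^ 2 / p) := by
        apply mul_le_mul _ h1 (Real.sqrt_nonneg _) (by positivity)
        apply mul_le_mul_of_nonneg_left _ (by positivity)
        exact mul_le_mul_of_nonneg_right h5 (by positivity)
    _ = 56 * T ^ 3 * b := by field_simp; ring
    _ ≤ (b : ℝ) * b := by
        apply mul_le_mul_of_nonneg_right _ (by positivity)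
        have : 0 < T ^ 3 := by positivity
        linarith
    _ ≤ 1 / (b : ℝ) * ((b : ℝ) ^ 8 / 2) := by
        have h6 : 1 / (b : ℝ) * ((b : ℝ) ^ 8 / 2) = (b : ℝ) ^ 7 / 2 := by field_simp
        rw [h6]
        have h7 : (b : ℝ) ^ 7 = (b : ℝ) ^ 5 * (b * b) := by ring
        have h8 : 2 ≤ (b : ℝ) ^ 5 := by
          have h9 : (b : ℝ) ^ 1 ≤ (b : ℝ) ^ 5 := pow_le_pow_right₀ hb (by norm_num)
          have h10 := H.bT (n := 1) (by omega)
          rw [pow_one] at h9 h10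
          linarith [H.T1]
        rw [h7]
        nlinarith [mul_pos (lt_of_lt_of_le one_pos hb) (lt_of_lt_of_le one_pos hb)]
    _ ≤ 1 / (b : ℝ) * Real.sqrt h := by
        apply mul_le_mul_of_nonneg_left _ (by positivity)
        linarith

theorem cu4 (H : P55 d a1 a2 R A c K T L b h p) :
    (1 - p / 2) ^ Jg K T p ≤ Real.exp (-(K * T)) := by
  have h1 := H.Jg_ge
  have hp := H.p_pos
  have h2 := H.p2
  calc (1 - p / 2) ^ Jg K T p ≤ (Real.exp (-(p / 2))) ^ Jg K T p := by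
        apply pow_le_pow_left₀ (by linarith)
        exact Real.one_sub_le_exp_neg _
    _ = Real.exp ((Jg K T p : ℝ) * (-(p / 2))) := by rw [← Real.exp_nat_mul]
    _ ≤ Real.exp (-(K * T)) := by
        apply Real.exp_le_exp.mpr
        rw [div_le_iff₀ hp] at h1
        linarith

theorem cl2 (H : P55 d a1 a2 R A c K T L b h p) :
    8 * (1 / (b : ℝ)) + 32 * (K * T) / (b : ℝ) ^ d ≤ 1 / 2 := by
  have hb := H.b0
  have h0 := H.T0
  have h2 := H.lam_le
  have h3 : (b : ℝ) ≤ (b : ℝ) ^ d := by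
    calc (b : ℝ) = (b : ℝ) ^ 1 := (pow_one _).symm
      _ ≤ _ := pow_le_pow_right₀ hb (by have := H.hd; omega)
  have h4 : 80 * T ^ 2 ≤ (b : ℝ) := by
    have := H.bT (n := 3) (by omega)
    have h5 : T ^ 3 = T * T ^ 2 := by ring
    have := H.T1
    have : 0 < T ^ 2 := by positivity
    nlinarith
  have h5 : 32 * (K * T) / (b : ℝ) ^ d ≤ 32 * T ^ 2 / b := by
    apply div_le_div₀ (by positivity) (by linarith) (by positivity) h3
  have h6 : 8 * (1 / (b : ℝ)) + 32 * T ^ 2 / b = (8 + 32 * T ^ 2) / b := by ring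
  have h7 : (8 + 32 * T ^ 2) / (b : ℝ) ≤ 1 / 2 := by
    rw [div_le_iff₀ (by positivity)]
    nlinarith [sq_nonneg T]
  linarith

/-! `ρ` and `α`. -/

/-- `m₀`. -/
noncomputable def m0 (K T p : ℝ) : ℕ := M T * Jg K T p

/-- `ρ`. -/
noncomputable def rho (c K T h p : ℝ) : ℝ := c / 4 * Real.sqrt (((m0 K T p : ℝ) + 1) * h)

/-- `α`. -/
noncomputable def al (K T h p : ℝ) : ℝ := Real.sqrt (K * T / ((Jg K T p : ℝ) * h))

theorem al_sq (H : P55 d a1 a2 R A c K T L b h p) :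
    al K T h p ^ 2 = K * T / ((Jg K T p : ℝ) * h) := by
  unfold al
  rw [Real.sq_sqrt]
  have h1 := H.lam_ge
  have h2 := H.T0
  have h3 := H.h_one
  exact div_nonneg (by linarith) (by positivity)

theorem al_nonneg (_H : P55 d a1 a2 R A c K T L b h p) : 0 ≤ al K T h p := Real.sqrt_nonneg _

theorem al_b (H : P55 d a1 a2 R A c K T L b h p) : al K T h p * b ≤ 2 * T / b := by
  have hb := H.b0
  have h0 := H.T0
  have hJ := H.Jg_one
  have hh := H.h_ge
  have h1 : al K T h p ≤ 2 * T / (b : ℝ) ^ 2 := by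
    unfold al
    apply Real.sqrt_le_iff.mpr
    refine ⟨by positivity, ?_⟩
    have h2 : K * T / ((Jg K T p : ℝ) * h) ≤ T ^ 2 / (((b : ℝ) ^ 2 / 2) ^ 2) := by
      apply div_le_div₀ (by positivity) H.lam_le (by positivity)
      have h3 : (b : ℝ) ^ 2 ≤ (b : ℝ) ^ (2 * d + 4) := pow_le_pow_right₀ hb (by omega)
      have h4 : ((b : ℝ) ^ 2 / 2) ^ 2 ≤ ((b : ℝ) ^ (2 * d + 4) / 2) ^ 2 :=
        pow_le_pow_left₀ (by positivity) (by linarith) 2
      have h5 : 0 ≤ h := by linarith [H.h_one]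
      nlinarith
    refine h2.trans (le_of_eq ?_)
    field_simp
  calc al K T h p * b ≤ 2 * T / (b : ℝ) ^ 2 * b := mul_le_mul_of_nonneg_right h1 (by positivity)
    _ = 2 * T / b := by field_simp

theorem al_b_small (H : P55 d a1 a2 R A c K T L b h p) :
    12 * (R : ℝ) * (al K T h p * b) ≤ 1 := by
  have h1 := H.al_b
  have h2 := H.R_le
  have h0 := H.T0
  have hb := H.b0
  have h3 : 12 * T ^ 2 ≤ (b : ℝ) := by
    have := H.bT (n := 3) (by omega)
    have h5 : T ^ 3 = T * T ^ 2 := by ring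
    have := H.T1
    have : 0 < T ^ 2 := by positivity
    nlinarith
  have h4 : (0 : ℝ) ≤ R := by positivity
  calc 12 * (R : ℝ) * (al K T h p * b) ≤ 12 * (T / 2) * (2 * T / b) := by
        apply mul_le_mul _ h1 _ (by positivity)
        · linarith
        · exact mul_nonneg H.al_nonneg (by positivity)
    _ = 12 * T ^ 2 / b := by ring
    _ ≤ 1 := by
        rw [div_le_one (by positivity)]
        exact h3

theorem R_one (H : P55 d a1 a2 R A c K T L b h p) : (1 : ℝ) ≤ R := by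
  have : 1 ≤ R := by rw [H.hR]; omega
  exact_mod_cast this

theorem al_b_one (H : P55 d a1 a2 R A c K T L b h p) : al K T h p * b ≤ 1 := by
  have h1 := H.al_b_small
  have h2 := H.R_one
  have h3 : 0 ≤ al K T h p * b := mul_nonneg H.al_nonneg (by positivity)
  nlinarith

theorem al_one (H : P55 d a1 a2 R A c K T L b h p) : al K T h p ≤ 1 := by
  have h1 := H.al_b_one
  have h2 := H.b0
  have h3 := H.al_nonneg
  nlinarith

/-- `αρ` is large. -/
theorem al_rho (H : P55 d a1 a2 R A c K T L b h p) :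
    4 * ((R : ℝ) + 1) * (K * T) ≤ al K T h p * rho c K T h p := by
  have h0 := H.T0
  have hl := H.lam_ge
  have hJ := H.Jg_one
  have hh := H.h_one
  have hc := H.hc
  have hM := H.M_ge
  have hlam : 0 < K * T := by linarith
  have e1 : al K T h p * rho c K T h p =
      c / 4 * (Real.sqrt (K * T / ((Jg K T p : ℝ) * h)) *
        Real.sqrt (((m0 K T p : ℝ) + 1) * h)) := by
    unfold al rho; ring
  have e2 : Real.sqrt (K * T / ((Jg K T p : ℝ) * h)) * Real.sqrt (((m0 K T p : ℝ) + 1) * h) =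
      Real.sqrt (K * T * (((m0 K T p : ℝ) + 1) / (Jg K T p : ℝ))) := by
    rw [← Real.sqrt_mul (by positivity)]
    congr 1
    field_simp
  have e3 : (M T : ℝ) ≤ ((m0 K T p : ℝ) + 1) / (Jg K T p : ℝ) := by
    rw [le_div_iff₀ (by linarith)]
    unfold m0
    push_cast
    linarith
  have e4 : 16 * ((R : ℝ) + 1) * (K * T) / c ≤ Real.sqrt (K * T * (((m0 K T p : ℝ) + 1) /
      (Jg K T p : ℝ))) := by
    apply Real.le_sqrt_of_sq_le
    have e5 : (16 * ((R : ℝ) + 1) * (K * T) / c) ^ 2 =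
        K * T * ((16 * ((R : ℝ) + 1)) ^ 2 * K * T / c ^ 2) := by ring
    rw [e5]
    apply mul_le_mul_of_nonneg_left _ hlam.le
    refine le_trans ?_ e3
    refine le_trans ?_ hM
    rw [div_le_iff₀ (by positivity)]
    have := H.Ts
    nlinarith
  rw [e1, e2]
  have e6 : 4 * ((R : ℝ) + 1) * (K * T) = c / 4 * (16 * ((R : ℝ) + 1) * (K * T) / c) := by
    field_simp
    ring
  rw [e6]
  exact mul_le_mul_of_nonneg_left e4 (by positivity)

theorem d_exp (H : P55 d a1 a2 R A c K T L b h p) : 4 * (d : ℝ) ≤ Real.exp (2 * (K * T)) := by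
  have h1 := H.d_le
  have h2 := H.lam_ge
  have h0 := H.T0
  have h3 : 1 + K * T ≤ Real.exp (K * T) := by
    have := Real.add_one_le_exp (K * T); linarith
  have h4 : Real.exp (2 * (K * T)) = Real.exp (K * T) * Real.exp (K * T) := by
    rw [← Real.exp_add]; congr 1; ring
  have h5 : (4 : ℝ) ≤ Real.exp (K * T) := by linarith [H.T1]
  rw [h4]
  nlinarith

theorem cu5 (H : P55 d a1 a2 R A c K T L b h p) :
    2 * d * Real.exp (2 * ((Jg K T p : ℝ) * h) * (Real.cosh (al K T h p) - 1) -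
      al K T h p * rho c K T h p) ≤ Real.exp (-(K * T)) := by
  have hJ := H.Jg_one
  have hh := H.h_one
  have h1 := cosh_sub_one_le H.al_nonneg H.al_one
  rw [H.al_sq] at h1
  have h2 : 2 * ((Jg K T p : ℝ) * h) * (Real.cosh (al K T h p) - 1) ≤ 2 * (K * T) := by
    have h3 : 2 * ((Jg K T p : ℝ) * h) * (Real.cosh (al K T h p) - 1) ≤
        2 * ((Jg K T p : ℝ) * h) * (K * T / ((Jg K T p : ℝ) * h)) :=
      mul_le_mul_of_nonneg_left h1 (by positivity)
    refine h3.trans (le_of_eq ?_)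
    field_simp
  have h3 := H.al_rho
  have h4 := H.d_exp
  have h5 := H.R_one
  have hl := H.lam_ge
  have h0 := H.T0
  have h6 : 2 * ((Jg K T p : ℝ) * h) * (Real.cosh (al K T h p) - 1) -
      al K T h p * rho c K T h p ≤ -(3 * (K * T)) := by
    have : 8 * (K * T) ≤ 4 * ((R : ℝ) + 1) * (K * T) :=
      mul_le_mul_of_nonneg_right (by linarith) (by linarith)
    linarith
  calc 2 * d * Real.exp (2 * ((Jg K T p : ℝ) * h) * (Real.cosh (al K T h p) - 1) -
        al K T h p * rho c K T h p) ≤ Real.exp (2 * (K * T)) * Real.exp (-(3 * (K * T))) := by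
        apply mul_le_mul _ (Real.exp_le_exp.mpr h6) (by positivity) (by positivity)
        have : (0 : ℝ) ≤ d := by positivity
        linarith
    _ = Real.exp (-(K * T)) := by rw [← Real.exp_add]; congr 1; ring

theorem cu6 (H : P55 d a1 a2 R A c K T L b h p) :
    4 * d * (Real.exp (2 * h * (Real.cosh (al K T h p) - 1)) *
      (1 + p * (Real.exp (al K T h p * b) - 1))) ^ (R * (2 * Jg K T p)) *
        Real.exp (-(al K T h p * rho c K T h p)) ≤ Real.exp (-(K * T)) := by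
  have hJ := H.Jg_one
  have hh := H.h_one
  have hp := H.p_pos
  have hR := H.R_one
  have hl := H.lam_ge
  have h0 := H.T0
  have h1 := cosh_sub_one_le H.al_nonneg H.al_one
  rw [H.al_sq] at h1
  set x := al K T h p * b with hx
  have hx0 : 0 ≤ x := mul_nonneg H.al_nonneg (by positivity)
  have hx1 : x ≤ 1 := H.al_b_one
  have hxR : 12 * (R : ℝ) * x ≤ 1 := H.al_b_small
  -- the first factor
  have f1 : Real.exp (2 * h * (Real.cosh (al K T h p) - 1)) ≤
      Real.exp (2 * (K * T) / (Jg K T p : ℝ)) := by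
    apply Real.exp_le_exp.mpr
    have h3 : 2 * h * (Real.cosh (al K T h p) - 1) ≤ 2 * h * (K * T / ((Jg K T p : ℝ) * h)) :=
      mul_le_mul_of_nonneg_left h1 (by positivity)
    refine h3.trans (le_of_eq ?_)
    field_simp
  -- the second factor
  have f2 : Real.exp x - 1 ≤ 2 * x := by
    have h2 : |Real.exp x - 1| ≤ 2 * |x| := Real.abs_exp_sub_one_le (by rw [abs_of_nonneg hx0]; exact hx1)
    rw [abs_of_nonneg hx0] at h2
    exact (le_abs_self _).trans h2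
  have f3 : 1 + p * (Real.exp x - 1) ≤ Real.exp (2 * p * x) := by
    have h2 : p * (Real.exp x - 1) ≤ p * (2 * x) := mul_le_mul_of_nonneg_left f2 hp.le
    have h3 := Real.add_one_le_exp (2 * p * x)
    linarith
  have f4 : 0 ≤ 1 + p * (Real.exp x - 1) := by
    have : 1 ≤ Real.exp x := Real.one_le_exp hx0
    have : 0 ≤ p * (Real.exp x - 1) := mul_nonneg hp.le (by linarith)
    linarith
  have f5 : Real.exp (2 * h * (Real.cosh (al K T h p) - 1)) * (1 + p * (Real.exp x - 1)) ≤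
      Real.exp (2 * (K * T) / (Jg K T p : ℝ) + 2 * p * x) := by
    rw [Real.exp_add]
    exact mul_le_mul f1 f3 f4 (by positivity)
  have f6 : (Real.exp (2 * h * (Real.cosh (al K T h p) - 1)) * (1 + p * (Real.exp x - 1))) ^
      (R * (2 * Jg K T p)) ≤ Real.exp (4 * R * (K * T) + K * T) := by
    calc (Real.exp (2 * h * (Real.cosh (al K T h p) - 1)) * (1 + p * (Real.exp x - 1))) ^
        (R * (2 * Jg K T p)) ≤ (Real.exp (2 * (K * T) / (Jg K T p : ℝ) + 2 * p * x)) ^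
          (R * (2 * Jg K T p)) := pow_le_pow_left₀ (mul_nonneg (by positivity) f4) f5 _
      _ = Real.exp (((R * (2 * Jg K T p) : ℕ) : ℝ) *
          (2 * (K * T) / (Jg K T p : ℝ) + 2 * p * x)) := by rw [← Real.exp_nat_mul]
      _ ≤ Real.exp (4 * R * (K * T) + K * T) := by
          apply Real.exp_le_exp.mpr
          push_cast
          have e1 : (R : ℝ) * (2 * (Jg K T p : ℝ)) * (2 * (K * T) / (Jg K T p : ℝ) + 2 * p * x) =
              4 * R * (K * T) + 4 * R * x * (p * (Jg K T p : ℝ)) := by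
            field_simp
            ring
          rw [e1]
          have e2 := H.pJg_le
          have e3 : 4 * R * x * (p * (Jg K T p : ℝ)) ≤ 4 * R * x * (3 * (K * T)) :=
            mul_le_mul_of_nonneg_left e2 (by positivity)
          have e4 : 4 * R * x * (3 * (K * T)) = (12 * R * x) * (K * T) := by ring
          have e5 : (12 * R * x) * (K * T) ≤ 1 * (K * T) :=
            mul_le_mul_of_nonneg_right hxR (by linarith)
          linarith
  have h3 := H.al_rho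
  have h4 := H.d_exp
  calc 4 * d * (Real.exp (2 * h * (Real.cosh (al K T h p) - 1)) *
        (1 + p * (Real.exp x - 1))) ^ (R * (2 * Jg K T p)) *
          Real.exp (-(al K T h p * rho c K T h p))
      ≤ Real.exp (2 * (K * T)) * Real.exp (4 * R * (K * T) + K * T) *
          Real.exp (-(4 * ((R : ℝ) + 1) * (K * T))) := by
        apply mul_le_mul _ _ (by positivity) (by positivity)
        · apply mul_le_mul h4 f6 _ (by positivity)
          exact pow_nonneg (mul_nonneg (by positivity) f4) _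
        · apply Real.exp_le_exp.mpr
          linarith
    _ = Real.exp (-(K * T)) := by
        rw [← Real.exp_add, ← Real.exp_add]
        congr 1
        ring

theorem c_ge (H : P55 d a1 a2 R A c K T L b h p) : 1 / T ≤ c := by
  rw [div_le_iff₀ (by linarith [H.T0])]
  exact H.Tc

theorem rho_ge (H : P55 d a1 a2 R A c K T L b h p) : 5 * (b : ℝ) ≤ rho c K T h p := by
  have hb := H.b0
  have h0 := H.T0
  have hh := H.h_one
  have h1 : Real.sqrt h ≤ Real.sqrt (((m0 K T p : ℝ) + 1) * h) := by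
    apply Real.sqrt_le_sqrt
    have : (0 : ℝ) ≤ (m0 K T p : ℝ) := by positivity
    nlinarith
  have h2 := H.sqrt_h
  have h3 : (b : ℝ) ^ 2 ≤ (b : ℝ) ^ (2 * d + 4) := pow_le_pow_right₀ hb (by omega)
  have h4 : (b : ℝ) ^ 2 / 2 ≤ Real.sqrt (((m0 K T p : ℝ) + 1) * h) := by linarith
  have h5 := H.c_ge
  have h6 : 40 * T ≤ (b : ℝ) := by
    have := H.bT (n := 2) (by omega)
    have := H.T1
    nlinarith
  unfold rho
  calc 5 * (b : ℝ) ≤ 1 / T / 4 * ((b : ℝ) ^ 2 / 2) := by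
        have e1 : 1 / T / 4 * ((b : ℝ) ^ 2 / 2) = (b : ℝ) ^ 2 / (8 * T) := by
          field_simp
          norm_num
        rw [e1, le_div_iff₀ (by positivity)]
        nlinarith
    _ ≤ c / 4 * Real.sqrt (((m0 K T p : ℝ) + 1) * h) := by
        apply mul_le_mul _ h4 (by positivity) (by have := H.hc; positivity)
        linarith

/-- `r`. -/
noncomputable def rr (c K T h p : ℝ) : ℕ := ⌊rho c K T h p⌋₊

theorem rr_le (H : P55 d a1 a2 R A c K T L b h p) : (rr c K T h p : ℝ) ≤ rho c K T h p := by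
  apply Nat.floor_le
  have := H.rho_ge
  have := H.b0
  linarith

theorem rr_ge (H : P55 d a1 a2 R A c K T L b h p) : rho c K T h p / 2 ≤ (rr c K T h p : ℝ) := by
  have h1 := Nat.lt_floor_add_one (rho c K T h p)
  have h2 := H.rho_ge
  have h3 := H.b0
  unfold rr
  linarith

theorem rr_b (H : P55 d a1 a2 R A c K T L b h p) : 4 * b ≤ rr c K T h p := by
  unfold rr
  apply Nat.le_floor
  push_cast
  have := H.rho_ge
  have := H.b0
  linarith

/-- The time of the whole word. -/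
noncomputable def D2 (K T h p : ℝ) : ℝ := Real.sqrt (((4 * M T * Jg K T p : ℝ) + 1) * h)

theorem D2_le_rho (H : P55 d a1 a2 R A c K T L b h p) :
    D2 K T h p ≤ 2 * Real.sqrt (((m0 K T p : ℝ) + 1) * h) := by
  have hh := H.h_one
  unfold D2
  apply Real.sqrt_le_iff.mpr
  refine ⟨by positivity, ?_⟩
  rw [mul_pow, Real.sq_sqrt (by positivity)]
  unfold m0
  push_cast
  have : (0 : ℝ) ≤ M T * Jg K T p := by positivity
  nlinarith

theorem D2_pos (H : P55 d a1 a2 R A c K T L b h p) : 0 < D2 K T h p := by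
  unfold D2
  have := H.h_one
  positivity

theorem D2_le_r (H : P55 d a1 a2 R A c K T L b h p) :
    c / 16 * D2 K T h p ≤ (rr c K T h p : ℝ) := by
  refine le_trans ?_ H.rr_ge
  have h1 := H.D2_le_rho
  have hc := H.hc
  unfold rho
  have h2 : c / 16 * D2 K T h p ≤ c / 16 * (2 * Real.sqrt (((m0 K T p : ℝ) + 1) * h)) :=
    mul_le_mul_of_nonneg_left h1 (by positivity)
  linarith

theorem cl7 (H : P55 d a1 a2 R A c K T L b h p) :
    c / 16 * (c / 16) ^ d / (rr c K T h p : ℝ) ^ d ≤ c * (1 / D2 K T h p) ^ d / 16 := by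
  have hc := H.hc
  have h1 := H.D2_le_r
  have h2 := H.D2_pos
  have h3 : (c / 16 * D2 K T h p) ^ d ≤ (rr c K T h p : ℝ) ^ d :=
    pow_le_pow_left₀ (by positivity) h1 d
  calc c / 16 * (c / 16) ^ d / (rr c K T h p : ℝ) ^ d
      ≤ c / 16 * (c / 16) ^ d / (c / 16 * D2 K T h p) ^ d :=
        div_le_div_of_nonneg_left (by positivity) (by positivity) h3
    _ = c * (1 / D2 K T h p) ^ d / 16 := by
        rw [mul_pow, one_div, inv_pow]
        field_simp

theorem D2_sq (H : P55 d a1 a2 R A c K T L b h p) :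
    D2 K T h p ^ 2 = ((4 * M T * Jg K T p : ℝ) + 1) * h := by
  unfold D2
  rw [Real.sq_sqrt]
  have := H.h_one
  positivity

theorem D2_sq_le (H : P55 d a1 a2 R A c K T L b h p) :
    D2 K T h p ^ 2 ≤ 2 * ((4 * M T * Jg K T p : ℝ) * (b : ℝ) ^ a1) := by
  rw [H.D2_sq]
  have h1 := H.J_one
  have h2 := H.h2
  have h3 := H.h_one
  have h4 : ((4 * M T * Jg K T p : ℝ) + 1) * h ≤ (2 * (4 * M T * Jg K T p : ℝ)) * (b : ℝ) ^ a1 :=
    mul_le_mul (by linarith) h2 (by linarith) (by positivity)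
  linarith

theorem D2_one (H : P55 d a1 a2 R A c K T L b h p) : 1 ≤ D2 K T h p := by
  unfold D2
  apply Real.le_sqrt_of_sq_le
  have h1 := H.J_one
  have h3 := H.h_one
  nlinarith

theorem D2_le_L (H : P55 d a1 a2 R A c K T L b h p) : D2 K T h p ≤ L := by
  have h1 := H.D2_one
  have h2 := H.D2_sq_le
  have h3 := H.Jb_le
  have h0 := H.T0
  have h4 : D2 K T h p ≤ D2 K T h p ^ 2 := by nlinarith
  have h5 : 2 * T ^ (A * (a1 + a2) + 6) ≤ T ^ (A * (a1 + a2) + 7) := by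
    rw [pow_succ T (A * (a1 + a2) + 6), mul_comm 2]
    apply mul_le_mul_of_nonneg_left _ (by positivity)
    linarith [H.T1]
  have h6 : T ^ (A * (a1 + a2) + 7) ≤ L := (pow_le_pow_right₀ h0 (by omega)).trans H.TL
  linarith

theorem D2_le_b (H : P55 d a1 a2 R A c K T L b h p) : D2 K T h p ≤ (b : ℝ) ^ (a1 + a2 + 1) := by
  have h1 := H.D2_one
  have h2 := H.D2_sq_le
  have h3 := H.J_le
  have h0 := H.T0
  have hb := H.b0
  have h4 : D2 K T h p ≤ D2 K T h p ^ 2 := by nlinarith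
  have h5 : 96 * T ^ 4 ≤ (b : ℝ) := by
    have := H.bT (n := 5) (by omega)
    have h5 : T ^ 5 = T * T ^ 4 := by ring
    have := H.T1
    have : 0 < T ^ 4 := by positivity
    nlinarith
  calc D2 K T h p ≤ D2 K T h p ^ 2 := h4
    _ ≤ 2 * ((4 * M T * Jg K T p : ℝ) * (b : ℝ) ^ a1) := h2
    _ ≤ 2 * ((48 * T ^ 4 * (b : ℝ) ^ a2) * (b : ℝ) ^ a1) := by
        apply mul_le_mul_of_nonneg_left _ (by positivity)
        exact mul_le_mul_of_nonneg_right h3 (by positivity)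
    _ = 96 * T ^ 4 * (b : ℝ) ^ (a1 + a2) := by rw [pow_add]; ring
    _ ≤ b * (b : ℝ) ^ (a1 + a2) := mul_le_mul_of_nonneg_right h5 (by positivity)
    _ = (b : ℝ) ^ (a1 + a2 + 1) := by ring

theorem D1_le (H : P55 d a1 a2 R A c K T L b h p) :
    1 / Real.sqrt ((Jg K T p : ℝ) * h) ≤ 5 * T * (1 / D2 K T h p) := by
  have hJ := H.Jg_one
  have hh := H.h_one
  have h0 := H.T0
  have h1 : D2 K T h p ≤ 5 * T * Real.sqrt ((Jg K T p : ℝ) * h) := by
    unfold D2
    apply Real.sqrt_le_iff.mpr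
    refine ⟨by positivity, ?_⟩
    rw [mul_pow, Real.sq_sqrt (by positivity)]
    have h2 := H.M_le
    have h3 : (4 * M T * Jg K T p : ℝ) + 1 ≤ 20 * T ^ 2 * Jg K T p := by
      have h4 : (4 * M T * Jg K T p : ℝ) ≤ 16 * T ^ 2 * Jg K T p := by
        apply mul_le_mul_of_nonneg_right _ (by positivity)
        linarith
      nlinarith
    have h5 : ((4 * M T * Jg K T p : ℝ) + 1) * h ≤ (20 * T ^ 2 * Jg K T p) * h :=
      mul_le_mul_of_nonneg_right h3 (by linarith)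
    have h6 : (20 * T ^ 2 * Jg K T p) * h ≤ (5 * T) ^ 2 * ((Jg K T p : ℝ) * h) := by
      have : 0 ≤ T ^ 2 * ((Jg K T p : ℝ) * h) := by positivity
      nlinarith
    linarith
  have hD := H.D2_pos
  have hs : 0 < Real.sqrt ((Jg K T p : ℝ) * h) := by positivity
  rw [div_le_iff₀ hs, mul_one_div, div_mul_eq_mul_div, le_div_iff₀ hD]
  linarith

theorem cl6 (H : P55 d a1 a2 R A c K T L b h p) :
    (1 / (b : ℝ) / 2 + 8 * (K * T) / (b : ℝ) ^ d) *
      (8 * (1 / Real.sqrt ((Jg K T p : ℝ) * h) + 1 / (L : ℝ)) ^ d +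
        (8 * (1 / (b : ℝ)) + 32 * (K * T) / (b : ℝ) ^ d) ^ R) ≤
      c * (1 / D2 K T h p) ^ d / 16 := by
  have hb := H.b0
  have h0 := H.T0
  have hl := H.lam_le
  have hl0 := H.lam_ge
  have hD := H.D2_pos
  have hlam0 : 0 ≤ K * T := by linarith
  have hbd : (b : ℝ) ^ 2 ≤ (b : ℝ) ^ d := pow_le_pow_right₀ hb H.hd
  have hT2 : T ^ 2 ≤ (b : ℝ) := H.bT (by omega)
  have k1 : K * T / (b : ℝ) ^ d ≤ 1 / b := by
    rw [div_le_div_iff₀ (by positivity) (by positivity), one_mul]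
    calc K * T * b ≤ b * b := mul_le_mul_of_nonneg_right (by linarith) (by positivity)
      _ = (b : ℝ) ^ 2 := by ring
      _ ≤ _ := hbd
  have k2 : 1 / (b : ℝ) / 2 + 8 * (K * T) / (b : ℝ) ^ d ≤ 9 / b := by
    have e1 : 8 * (K * T) / (b : ℝ) ^ d = 8 * (K * T / (b : ℝ) ^ d) := by ring
    have e2 : 9 / (b : ℝ) = 9 * (1 / b) := by ring
    rw [e1, e2]
    have : 0 < 1 / (b : ℝ) := by positivity
    linarith
  have k3 : 8 * (1 / (b : ℝ)) + 32 * (K * T) / (b : ℝ) ^ d ≤ 40 / b := by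
    have e1 : 32 * (K * T) / (b : ℝ) ^ d = 32 * (K * T / (b : ℝ) ^ d) := by ring
    have e2 : 40 / (b : ℝ) = 40 * (1 / b) := by ring
    rw [e1, e2]
    linarith
  -- the first summand
  have k4 : 1 / Real.sqrt ((Jg K T p : ℝ) * h) + 1 / (L : ℝ) ≤ 6 * T * (1 / D2 K T h p) := by
    have e1 := H.D1_le
    have e2 : 1 / (L : ℝ) ≤ 1 / D2 K T h p := one_div_le_one_div_of_le hD H.D2_le_L
    have e3 : 0 < 1 / D2 K T h p := by positivity
    nlinarith
  have k5 : 8 * (1 / Real.sqrt ((Jg K T p : ℝ) * h) + 1 / (L : ℝ)) ^ d ≤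
      8 * T ^ (d + 1) * (1 / D2 K T h p) ^ d := by
    have e1 : (1 / Real.sqrt ((Jg K T p : ℝ) * h) + 1 / (L : ℝ)) ^ d ≤
        (6 * T * (1 / D2 K T h p)) ^ d := pow_le_pow_left₀ (by positivity) k4 d
    have e2 : (6 * T * (1 / D2 K T h p)) ^ d = 6 ^ d * T ^ d * (1 / D2 K T h p) ^ d := by
      rw [mul_pow, mul_pow]
    have e3 : 6 ^ d * T ^ d * (1 / D2 K T h p) ^ d ≤ T * T ^ d * (1 / D2 K T h p) ^ d := by
      apply mul_le_mul_of_nonneg_right _ (by positivity)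
      exact mul_le_mul_of_nonneg_right H.Td (by positivity)
    have e4 : 8 * T ^ (d + 1) * (1 / D2 K T h p) ^ d = 8 * (T * T ^ d * (1 / D2 K T h p) ^ d) := by
      ring
    rw [e4]
    linarith
  -- the second summand
  have k6 : (8 * (1 / (b : ℝ)) + 32 * (K * T) / (b : ℝ) ^ d) ^ R ≤
      T ^ (d + 1) * (1 / D2 K T h p) ^ d := by
    have e1 : (8 * (1 / (b : ℝ)) + 32 * (K * T) / (b : ℝ) ^ d) ^ R ≤ (40 / (b : ℝ)) ^ R :=
      pow_le_pow_left₀ (by positivity) k3 R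
    have e2 : (40 / (b : ℝ)) ^ R = 40 ^ R * (1 / (b : ℝ) ^ R) := by
      rw [div_pow]; ring
    have e3 : D2 K T h p ^ d ≤ (b : ℝ) ^ R := by
      calc D2 K T h p ^ d ≤ ((b : ℝ) ^ (a1 + a2 + 1)) ^ d :=
            pow_le_pow_left₀ hD.le H.D2_le_b d
        _ = (b : ℝ) ^ (d * (a1 + a2 + 1)) := by rw [← pow_mul]; congr 1; ring
        _ ≤ (b : ℝ) ^ R := pow_le_pow_right₀ hb (by rw [H.hR]; omega)
    have e4 : 1 / (b : ℝ) ^ R ≤ (1 / D2 K T h p) ^ d := by
      rw [one_div_pow]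
      exact one_div_le_one_div_of_le (by positivity) e3
    have e5 : T ≤ T ^ (d + 1) := by
      calc T = T ^ 1 := (pow_one _).symm
        _ ≤ _ := pow_le_pow_right₀ h0 (by omega)
    refine e1.trans ?_
    rw [e2]
    exact mul_le_mul (H.TR.trans e5) e4 (by positivity) (by positivity)
  have k7 : 1296 * T ^ (d + 2) ≤ (b : ℝ) := by
    have := H.bT (n := d + 3) (by omega)
    have h5 : T ^ (d + 3) = T * T ^ (d + 2) := by ring
    have := H.T1
    have : 0 < T ^ (d + 2) := by positivity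
    nlinarith
  have k8 : 81 * T ^ (d + 1) / b ≤ c / 16 := by
    have e1 := H.c_ge
    have e2 : 81 * T ^ (d + 1) / (b : ℝ) ≤ 1 / T / 16 := by
      rw [div_le_div_iff₀ (by positivity) (by norm_num), one_div, inv_mul_eq_div,
        le_div_iff₀ (by positivity)]
      have e3 : 81 * T ^ (d + 1) * 16 * T = 1296 * T ^ (d + 2) := by ring
      rw [e3]
      exact k7
    linarith
  calc (1 / (b : ℝ) / 2 + 8 * (K * T) / (b : ℝ) ^ d) *
      (8 * (1 / Real.sqrt ((Jg K T p : ℝ) * h) + 1 / (L : ℝ)) ^ d +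
        (8 * (1 / (b : ℝ)) + 32 * (K * T) / (b : ℝ) ^ d) ^ R)
      ≤ 9 / b * (8 * T ^ (d + 1) * (1 / D2 K T h p) ^ d +
          T ^ (d + 1) * (1 / D2 K T h p) ^ d) := by
        apply mul_le_mul k2 (add_le_add k5 k6) (by positivity) (by positivity)
    _ = 81 * T ^ (d + 1) / b * (1 / D2 K T h p) ^ d := by ring
    _ ≤ c / 16 * (1 / D2 K T h p) ^ d := mul_le_mul_of_nonneg_right k8 (by positivity)
    _ = c * (1 / D2 K T h p) ^ d / 16 := by ring

theorem cl5 (H : P55 d a1 a2 R A c K T L b h p) :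
    2 * (R * (2 * Jg K T p) + m0 K T p + Jg K T p) ≤ 4 * M T * Jg K T p := by
  have h1 : 2 * R + 1 ≤ M T := by
    have h2 := H.R_le
    have h3 := H.M_ge
    have h0 := H.T0
    have h4 : (2 * (R : ℝ) + 1) ≤ (M T : ℝ) := by nlinarith
    exact_mod_cast h4
  unfold m0
  have h2 : 2 * (R * (2 * Jg K T p) + M T * Jg K T p + Jg K T p) =
      (4 * R + 2 * M T + 2) * Jg K T p := by ring
  rw [h2]
  apply Nat.mul_le_mul_right
  omega

/-! The conditions of the other blocks. -/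

theorem f3 (H : P55 d a1 a2 R A c K T L b h p) :
    (b : ℝ) ^ d * (4 * M T * Jg K T p : ℝ) * (1 + T) ^ 2 ≤ (rr c K T h p : ℝ) ^ d := by
  have hb := H.b0
  have h0 := H.T0
  have hh := H.h_one
  have hr := H.rr_ge
  have hrho := H.rho_ge
  have hc := H.hc
  have r1 : 1 ≤ (rr c K T h p : ℝ) := by linarith
  have h1 : (rr c K T h p : ℝ) ^ 2 ≤ (rr c K T h p : ℝ) ^ d := pow_le_pow_right₀ r1 H.hd
  refine le_trans ?_ h1
  have h2 : (rho c K T h p / 2) ^ 2 ≤ (rr c K T h p : ℝ) ^ 2 :=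
    pow_le_pow_left₀ (by linarith) hr 2
  refine le_trans ?_ h2
  have h3 : (rho c K T h p / 2) ^ 2 = c ^ 2 / 64 * (((m0 K T p : ℝ) + 1) * h) := by
    unfold rho
    rw [div_pow, mul_pow, Real.sq_sqrt (by positivity)]
    ring
  rw [h3]
  have h4 : (4 * M T * Jg K T p : ℝ) / 4 ≤ (m0 K T p : ℝ) + 1 := by
    unfold m0
    push_cast
    linarith
  have h5 := H.h1
  have h6 : (b : ℝ) ^ d * b ≤ (b : ℝ) ^ a1 := by
    rw [← pow_succ]
    exact pow_le_pow_right₀ hb (by have := H.ha1; omega)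
  have h7 : 2048 * T ^ 4 ≤ (b : ℝ) := by
    have := H.bT (n := 5) (by omega)
    have h5 : T ^ 5 = T * T ^ 4 := by ring
    have := H.T1
    have : 0 < T ^ 4 := by positivity
    nlinarith
  have h8 : 1 / T ^ 2 ≤ c ^ 2 := by
    have e1 := H.c_ge
    have e2 : (1 / T) ^ 2 ≤ c ^ 2 := pow_le_pow_left₀ (by positivity) e1 2
    rwa [one_div_pow] at e2
  have h9 : (1 + T) ^ 2 ≤ 4 * T ^ 2 := by nlinarith
  calc (b : ℝ) ^ d * (4 * M T * Jg K T p : ℝ) * (1 + T) ^ 2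
      ≤ (b : ℝ) ^ d * (4 * M T * Jg K T p : ℝ) * (4 * T ^ 2) :=
        mul_le_mul_of_nonneg_left h9 (by positivity)
    _ = 1 / T ^ 2 / 64 * ((4 * M T * Jg K T p : ℝ) / 4 * ((b : ℝ) ^ d * (2048 * T ^ 4) / 2)) := by
        field_simp
        ring
    _ ≤ c ^ 2 / 64 * ((4 * M T * Jg K T p : ℝ) / 4 * ((b : ℝ) ^ d * b / 2)) := by
        apply mul_le_mul (by linarith) _ (by positivity) (by positivity)
        apply mul_le_mul_of_nonneg_left _ (by positivity)
        have : (b : ℝ) ^ d * (2048 * T ^ 4) ≤ (b : ℝ) ^ d * b :=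
          mul_le_mul_of_nonneg_left h7 (by positivity)
        linarith
    _ ≤ c ^ 2 / 64 * (((m0 K T p : ℝ) + 1) * h) := by
        apply mul_le_mul_of_nonneg_left _ (by positivity)
        exact mul_le_mul h4 (by linarith) (by positivity) (by positivity)

theorem f4 (H : P55 d a1 a2 R A c K T L b h p) : 2 * rr c K T h p ≤ L := by
  have hb := H.b0
  have h0 := H.T0
  have hh := H.h_one
  have h1 := H.rr_le
  have h2 : rho c K T h p ≤ T / 4 * ((4 * M T * Jg K T p : ℝ) * (b : ℝ) ^ a1) := by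
    unfold rho
    have hx : 1 ≤ ((m0 K T p : ℝ) + 1) * h := by
      have : (0 : ℝ) ≤ m0 K T p := by positivity
      nlinarith
    have e1 : Real.sqrt (((m0 K T p : ℝ) + 1) * h) ≤ ((m0 K T p : ℝ) + 1) * h := by
      apply Real.sqrt_le_iff.mpr
      refine ⟨by linarith, by nlinarith⟩
    have e2 : (m0 K T p : ℝ) + 1 ≤ (4 * M T * Jg K T p : ℝ) := by
      have hJ := H.Jg_one
      have hM := H.M_ge
      have hM1 : (1 : ℝ) ≤ M T := by nlinarith
      have : (1 : ℝ) ≤ M T * Jg K T p := by nlinarith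
      unfold m0
      push_cast
      linarith
    have e3 : ((m0 K T p : ℝ) + 1) * h ≤ (4 * M T * Jg K T p : ℝ) * (b : ℝ) ^ a1 :=
      mul_le_mul e2 H.h2 (by linarith) (by positivity)
    have hc := H.Tc'
    exact mul_le_mul (by linarith) (e1.trans e3) (Real.sqrt_nonneg _) (by positivity)
  have h3 := H.Jb_le
  have h4 : T / 4 * ((4 * M T * Jg K T p : ℝ) * (b : ℝ) ^ a1) ≤
      T / 4 * T ^ (A * (a1 + a2) + 6) := mul_le_mul_of_nonneg_left h3 (by positivity)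
  have h5 : T * T ^ (A * (a1 + a2) + 6) ≤ L := by
    have e1 : T * T ^ (A * (a1 + a2) + 6) = T ^ (A * (a1 + a2) + 7) := by ring
    rw [e1]
    exact (pow_le_pow_right₀ h0 (by omega)).trans H.TL
  have h6 : 0 ≤ T * T ^ (A * (a1 + a2) + 6) := by positivity
  have h7 : (2 * (rr c K T h p : ℝ)) ≤ L := by
    have e1 : T / 4 * T ^ (A * (a1 + a2) + 6) = T * T ^ (A * (a1 + a2) + 6) / 4 := by ring
    rw [e1] at h4
    linarith
  exact_mod_cast h7

theorem f6 (H : P55 d a1 a2 R A c K T L b h p) :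
    ((b : ℝ) ^ d * (2 * ((b : ℝ) ^ d * (1 / Real.sqrt h + 1 / (L : ℝ)) ^ d) +
      32 * (K * T) / (b : ℝ) ^ d)) * (2 * p * (4 * M T * Jg K T p : ℝ) + K * T + 1) ≤
      (b : ℝ) ^ d := by
  have hb := H.b0
  have h0 := H.T0
  have hl := H.lam_le
  have hl0 := H.lam_ge
  have hs := H.sd_le
  have hbb : (b : ℝ) ≤ (b : ℝ) ^ d := by
    calc (b : ℝ) = (b : ℝ) ^ 1 := (pow_one _).symm
      _ ≤ _ := pow_le_pow_right₀ hb (by have := H.hd; omega)
  have h1 : (b : ℝ) ^ d * (2 * ((b : ℝ) ^ d * (1 / Real.sqrt h + 1 / (L : ℝ)) ^ d) +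
      32 * (K * T) / (b : ℝ) ^ d) ≤ 34 * T ^ 2 := by
    have e1 : (b : ℝ) ^ d * (2 * ((b : ℝ) ^ d * (1 / Real.sqrt h + 1 / (L : ℝ)) ^ d) +
        32 * (K * T) / (b : ℝ) ^ d) =
        2 * ((b : ℝ) ^ d * (b : ℝ) ^ d * (1 / Real.sqrt h + 1 / (L : ℝ)) ^ d) +
          32 * (K * T) := by
      field_simp
    have e2 : (b : ℝ) ^ d * (b : ℝ) ^ d * (1 / Real.sqrt h + 1 / (L : ℝ)) ^ d ≤ 1 := by
      calc (b : ℝ) ^ d * (b : ℝ) ^ d * (1 / Real.sqrt h + 1 / (L : ℝ)) ^ d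
          ≤ (b : ℝ) ^ d * (b : ℝ) ^ d * (3 / (b : ℝ) ^ (2 * d + 4)) :=
            mul_le_mul_of_nonneg_left hs (by positivity)
        _ = 3 / (b : ℝ) ^ 4 := by
            have : (b : ℝ) ^ (2 * d + 4) = (b : ℝ) ^ d * (b : ℝ) ^ d * (b : ℝ) ^ 4 := by
              rw [← pow_add, ← pow_add]; congr 1; ring
            rw [this]
            field_simp
        _ ≤ 1 := by
            rw [div_le_one (by positivity)]
            have h9 : (b : ℝ) ^ 1 ≤ (b : ℝ) ^ 4 := pow_le_pow_right₀ hb (by norm_num)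
            have h10 := H.bT (n := 1) (by omega)
            rw [pow_one] at h9 h10
            linarith [H.T1]
    rw [e1]
    nlinarith
  have h2 : 2 * p * (4 * M T * Jg K T p : ℝ) + K * T + 1 ≤ 98 * T ^ 4 := by
    have e1 := H.pJ_le
    have e2 : T ^ 2 ≤ T ^ 4 := pow_le_pow_right₀ h0 (by norm_num)
    have e3 : 1 ≤ T ^ 4 := one_le_pow₀ h0
    linarith
  have h3 : 3332 * T ^ 6 ≤ (b : ℝ) := by
    have := H.bT (n := 7) (by omega)
    have h5 : T ^ 7 = T * T ^ 6 := by ring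
    have := H.T1
    have : 0 < T ^ 6 := by positivity
    nlinarith
  have h4 : 0 ≤ 2 * p * (4 * M T * Jg K T p : ℝ) + K * T + 1 := by
    have e1 : 0 ≤ 2 * p * (4 * M T * Jg K T p : ℝ) := by
      have := H.p_pos
      positivity
    linarith
  calc ((b : ℝ) ^ d * (2 * ((b : ℝ) ^ d * (1 / Real.sqrt h + 1 / (L : ℝ)) ^ d) +
      32 * (K * T) / (b : ℝ) ^ d)) * (2 * p * (4 * M T * Jg K T p : ℝ) + K * T + 1)
      ≤ (34 * T ^ 2) * (98 * T ^ 4) := mul_le_mul h1 h2 h4 (by positivity)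
    _ = 3332 * T ^ 6 := by ring
    _ ≤ (b : ℝ) ^ d := h3.trans hbb

/-- All the conditions. -/
theorem par (H : P55 d a1 a2 R A c K T L b h p) :
    Par d L b (4 * M T * Jg K T p) (Jg K T p) R (m0 K T p) (rr c K T h p) c h (1 / (b : ℝ))
      (K * T) (rho c K T h p) (al K T h p) p (p / 2)
      (2 * ((b : ℝ) ^ d * (1 / Real.sqrt h + 1 / (L : ℝ)) ^ d) + 32 * (K * T) / (b : ℝ) ^ d)
      (c / 16 * (c / 16) ^ d) where
  hL := by
    have h1 := H.ba_le_L
    have h2 : (b : ℝ) ^ 1 ≤ (b : ℝ) ^ a1 := pow_le_pow_right₀ H.b0 (by have := H.ha1; omega)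
    have h3 := H.bT (n := 1) (by omega)
    rw [pow_one] at h2 h3
    have h4 : (2 : ℝ) ≤ L := by linarith [H.T1]
    exact_mod_cast h4
  hb := by exact_mod_cast H.b0
  hbL := by
    have h1 := H.ba_le_L
    have h2 : (b : ℝ) ^ 1 ≤ (b : ℝ) ^ a1 := pow_le_pow_right₀ H.b0 (by have := H.ha1; omega)
    rw [pow_one] at h2
    exact_mod_cast h2.trans h1
  hJg := by exact_mod_cast H.Jg_one
  hh := H.h_one
  hδ := by
    have := H.b0
    positivity
  hlam := by linarith [H.lam_ge, H.T0]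
  hα := H.al_nonneg
  hp := H.p_pos.le
  hp'0 := by linarith [H.p_pos]
  hp'1 := by linarith [H.p2]
  u1 := H.cu1
  u2 := H.cu2
  u3 := by
    have := H.cu3
    push_cast
    exact this
  u4 := H.cu4
  u5 := H.cu5
  u6 := H.cu6
  u8 := le_rfl
  l2 := H.cl2
  l3 := by linarith [H.rho_ge, H.b0]
  l4 := by
    unfold rho
    linarith
  l5 := H.cl5
  l6 := by
    have := H.cl6
    unfold D2 at this
    push_cast
    exact this
  l7 := by
    have := H.cl7
    unfold D2 at this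
    push_cast
    exact this
  l8 := H.rr_le
  l9 := H.rr_b

end P55

/-- ROW P. All parameters are powers of `log L`: `b` = side of the windows, `h ~ b ^ a1` = length
of a slab, `p ≥ b ^ (-a2)` = density of the windows. The last conclusions are what blocks (3), (4)
and the union bound need. `A` may be taken as large as one likes. -/
theorem params (d : ℕ) (hd : 2 ≤ d) {c : ℝ} (hc : 0 < c) (a1 a2 : ℕ) (ha1 : 4 * d + 8 ≤ a1)
    (K : ℝ) (hK : 1 ≤ K) :
    ∃ (R A₀ : ℕ) (c1 : ℝ), 0 < c1 ∧ ∀ A : ℕ, A₀ ≤ A → ∃ B : ℕ, ∀ᶠ L : ℕ in atTop, ∀ b : ℕ,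
      Real.log L ^ A ≤ b → (b : ℝ) ≤ 2 * Real.log L ^ A →
      ∀ h : ℝ, (b : ℝ) ^ a1 / 2 ≤ h → h ≤ (b : ℝ) ^ a1 →
      ∀ p : ℝ, 1 / (b : ℝ) ^ a2 ≤ p → p ≤ 1 →
      ∃ (J Jg m₀ r : ℕ) (δ ρ α Mm : ℝ),
        Par d L b J Jg R m₀ r c h δ (K * Real.log L) ρ α p (p / 2) Mm c1 ∧
        (J : ℝ) * (b : ℝ) ^ a1 ≤ Real.log L ^ B ∧ (J : ℝ) * (b : ℝ) ^ a1 ≤ L ∧
        (b : ℝ) ^ d * J * (1 + Real.log L) ^ 2 ≤ (r : ℝ) ^ d ∧ 2 * r ≤ L ∧ 0 ≤ Mm ∧
        ((b : ℝ) ^ d * Mm) * (2 * p * J + K * Real.log L + 1) ≤ (b : ℝ) ^ d := by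
  refine ⟨d * (a1 + a2 + 1) + 1, d + 10, c / 16 * (c / 16) ^ d, by positivity, ?_⟩
  intro A hA
  refine ⟨A * (a1 + a2) + 6, ?_⟩
  set R : ℕ := d * (a1 + a2 + 1) + 1 with hR
  have hlog : Tendsto (fun L : ℕ => Real.log L) atTop atTop :=
    Real.tendsto_log_atTop.comp tendsto_natCast_atTop_atTop
  have hpow : ∀ᶠ L : ℕ in atTop, Real.log L ^ (A * (a1 + a2) + 15) ≤ L := by
    have h1 := (Real.isLittleO_pow_log_id_atTop (n := A * (a1 + a2) + 15)).bound
      (show (0 : ℝ) < 1 by norm_num)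
    have h2 := tendsto_natCast_atTop_atTop (R := ℝ) |>.eventually h1
    filter_upwards [h2] with L hL
    calc Real.log L ^ (A * (a1 + a2) + 15) ≤ ‖Real.log L ^ (A * (a1 + a2) + 15)‖ :=
          Real.le_norm_self _
      _ ≤ 1 * ‖id (L : ℝ)‖ := hL
      _ = L := by simp
  filter_upwards [hlog.eventually_ge_atTop ((10 : ℝ) ^ 6), hlog.eventually_ge_atTop K,
    hlog.eventually_ge_atTop (1 / c), hlog.eventually_ge_atTop c,
    hlog.eventually_ge_atTop ((6 : ℝ) ^ d), hlog.eventually_ge_atTop ((40 : ℝ) ^ R),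
    hlog.eventually_ge_atTop ((2 : ℝ) ^ (a1 + a2)),
    hlog.eventually_ge_atTop ((16 * ((R : ℝ) + 1)) ^ 2 * K / c ^ 2), hpow]
    with L t1 tK tc tc' td tR ta ts tL
  intro b b1 b2 h h1 h2 p p1 p2
  have H : P55 d a1 a2 R A c K (Real.log L) L b h p :=
    { hd := hd, hc := hc, ha1 := ha1, hK := hK, hR := hR, hA := hA, T1 := t1, TK := tK
      Tc := by
        rw [div_le_iff₀ hc] at tc
        linarith
      Tc' := tc', Td := td, TR := tR, Ta := ta
      Ts := by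
        rw [div_le_iff₀ (by positivity)] at ts
        linarith
      TL := tL, b1 := b1, b2 := b2, h1 := h1, h2 := h2, p1 := p1, p2 := p2 }
  refine ⟨4 * P55.M (Real.log L) * P55.Jg K (Real.log L) p, P55.Jg K (Real.log L) p,
    P55.m0 K (Real.log L) p, P55.rr c K (Real.log L) h p, 1 / (b : ℝ),
    P55.rho c K (Real.log L) h p, P55.al K (Real.log L) h p, _, H.par, ?_, ?_, ?_, H.f4, ?_, ?_⟩
  · push_cast
    exact H.Jb_le
  · push_cast
    exact H.Jb_le_L
  · push_cast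
    exact H.f3
  · have := H.lam_ge
    have := H.T0
    have h3 : 0 ≤ K * Real.log L := by linarith
    positivity
  · push_cast
    exact H.f6

end Pool.Agent.Stirring.QK
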